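import Pool.Agent.H.MP_4bcbbd_co.Defs

/-!
MP_4bcbbd_co: combinatorial data of centrally symmetric polytopes.
-/

set_option autoImplicit false

namespace Pool.Agent.H.MP_4bcbbd_co

open scoped BigOperators

/-- `W` is the set of the points of `V` on the hyperplane `l = 1`, the others being below it. -/
def Spt {d : ℕ} (V W : Finset (E d)) : Prop :=
  ∃ l : E d →L[ℝ] ℝ, (∀ w ∈ W, l w = 1) ∧ ∀ v ∈ V, v ∉ W → l v < 1

/-- `V` is the vertex set of a centrally symmetric `d`-polytope. -/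
structure CSData {d : ℕ} (V : Finset (E d)) : Prop where
  neg : ∀ v ∈ V, -v ∈ V
  vert : ∀ v ∈ V, Spt V {v}
  span : Submodule.span ℝ (V : Set (E d)) = ⊤

/-- all faces are simplices. -/
def Simp {d : ℕ} (V : Finset (E d)) : Prop :=
  ∀ W ⊆ V, Spt V W → LinearIndependent ℝ ((↑) : W → E d)

open Classical in
/-- the vertex sets with `j` elements of the faces. -/
noncomputable def fc {d : ℕ} (V : Finset (E d)) (j : ℕ) : Finset (Finset (E d)) :=
  V.powerset.filter fun W => W.card = j ∧ Spt V W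

/-- all four edges between `±p` and `±q` are present. -/
def Full {d : ℕ} (V : Finset (E d)) (p q : E d) : Prop :=
  p ≠ q ∧ p ≠ -q ∧ (∃ l : E d →L[ℝ] ℝ, l p = 1 ∧ l q = 1 ∧
    ∀ v ∈ V, v ≠ p → v ≠ q → l v < 1) ∧
  (∃ l : E d →L[ℝ] ℝ, l p = 1 ∧ l q = -1 ∧ ∀ v ∈ V, v ≠ p → v ≠ -q → l v < 1)

/-- determinant of four vectors of `ℝ^4`. -/
noncomputable def D (x y z w : E 4) : ℝ :=
  Matrix.det (Matrix.of fun i j : Fin 4 => (![x, y, z, w] i) j)

lemma mem_fc {d : ℕ} {V W : Finset (E d)} {j : ℕ} :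
    W ∈ fc V j ↔ W ⊆ V ∧ W.card = j ∧ Spt V W := by
  classical
  unfold fc
  rw [Finset.mem_filter, Finset.mem_powerset]

lemma CSData.ne_zero {d : ℕ} {V : Finset (E d)} (hV : CSData V) {v : E d} (hv : v ∈ V) :
    v ≠ 0 := by
  rintro rfl
  obtain ⟨l, h1, -⟩ := hV.vert 0 hv
  have := h1 0 (by simp)
  simp at this

/-- a functional which is at most `1` on `V` is at least `-1`. -/
lemma CSData.neg_one_le {d : ℕ} {V : Finset (E d)} (hV : CSData V) {l : E d →L[ℝ] ℝ}
    (h : ∀ v ∈ V, l v ≤ 1) {v : E d} (hv : v ∈ V) : -1 ≤ l v := by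
  have := h _ (hV.neg v hv)
  rw [map_neg] at this
  linarith

end Pool.Agent.H.MP_4bcbbd_co
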