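import Pool.Agent.H.MP_4bcbbd_co.Base

/-!
MP_4bcbbd_co: linear programming over the facets, easy part.
-/

set_option autoImplicit false

namespace Pool.Agent.H.MP_4bcbbd_co

open scoped BigOperators

/-- linear functionals with given values on a linearly independent family -/
theorem lp_exists_functional {d : ℕ} {W : Finset (E d)}
    (hli : LinearIndependent ℝ ((↑) : W → E d)) (a : E d → ℝ) :
    ∃ m : E d →L[ℝ] ℝ, ∀ w ∈ W, m w = a w := by
  let g : Submodule.span ℝ (Set.range ((↑) : W → E d)) →ₗ[ℝ] ℝ :=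
    (Finsupp.linearCombination ℝ (fun w : W => a w)).comp hli.repr
  obtain ⟨m, hm⟩ := LinearMap.exists_extend g
  refine ⟨LinearMap.toContinuousLinearMap m, fun w hw => ?_⟩
  have h1 : (w : E d) ∈ Submodule.span ℝ (Set.range ((↑) : W → E d)) :=
    Submodule.subset_span ⟨⟨w, hw⟩, rfl⟩
  have h2 := DFunLike.congr_fun hm ⟨w, h1⟩
  have h3 : hli.repr ⟨w, h1⟩ = Finsupp.single ⟨w, hw⟩ 1 :=
    hli.repr_eq_single ⟨w, hw⟩ ⟨w, h1⟩ rfl
  simp only [LinearMap.comp_apply, Submodule.subtype_apply, g, h3,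
    Finsupp.linearCombination_single, one_smul] at h2
  simpa using h2

/-- a subset of the vertex set of a face of a simplicial polytope is the vertex set of a face. -/
theorem spt_subset {d : ℕ} {V : Finset (E d)} (hS : Simp V) {W U : Finset (E d)}
    (hW : W ⊆ V) (h : Spt V W) (hU : U ⊆ W) : Spt V U := by
  classical
  obtain ⟨m, hm⟩ := lp_exists_functional (hS W hW h) (fun v => if v ∈ U then 0 else 1)
  obtain ⟨l, hl1, hl2⟩ := h
  have hev : ∀ᶠ ε : ℝ in nhdsWithin 0 (Set.Ioi 0), ∀ v ∈ V, v ∉ W → l v - ε * m v < 1 := by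
    rw [Filter.eventually_all_finset]
    intro v hv
    by_cases hvW : v ∈ W
    · exact Filter.Eventually.of_forall fun _ h => (h hvW).elim
    · have hcont : Filter.Tendsto (fun ε : ℝ => l v - ε * m v) (nhdsWithin 0 (Set.Ioi 0))
          (nhds (l v - 0 * m v)) := by
        have : Continuous fun ε : ℝ => l v - ε * m v := by fun_prop
        exact (this.tendsto 0).mono_left nhdsWithin_le_nhds
      have hlt : l v - 0 * m v < 1 := by
        rw [zero_mul, sub_zero]
        exact hl2 v hv hvW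
      filter_upwards [hcont.eventually_lt_const hlt] with ε hε _
      exact hε
  obtain ⟨ε, hε, hε0⟩ := (hev.and self_mem_nhdsWithin).exists
  refine ⟨l - ε • m, ?_, ?_⟩
  · intro w hw
    have h1 := hm w (hU hw)
    simp only [hw, if_true] at h1
    simp [hl1 w (hU hw), h1]
  · intro v hv hvU
    by_cases hvW : v ∈ W
    · have h1 := hm v hvW
      simp only [hvU, if_false] at h1
      simp [hl1 v hvW, h1, hε0]
    · have := hε v hv hvW
      simpa using this

/-- `z` lies in no span of fewer than `d` points of `V`. -/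
def Generic {d : ℕ} (V : Finset (E d)) (z : E d) : Prop :=
  ∀ U ⊆ V, U.card < d → z ∉ Submodule.span ℝ (U : Set (E d))

theorem exists_generic {d : ℕ} (V : Finset (E d)) : ∃ z, Generic V z := by
  classical
  let s : Finset (Subspace ℝ (E d)) := (V.powerset.filter fun U => U.card < d).image
    fun U : Finset (E d) => Submodule.span ℝ (U : Set (E d))
  have hs : ⊤ ∉ s := by
    intro h
    rw [Finset.mem_image] at h
    obtain ⟨U, hU, htop⟩ := h
    rw [Finset.mem_filter] at hU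
    have h1 := finrank_span_finset_le_card (R := ℝ) U
    have h3 : Module.finrank ℝ (Submodule.span ℝ (U : Set (E d))) ≤ U.card := h1
    rw [show Submodule.span ℝ (U : Set (E d)) = ⊤ from htop, finrank_top,
      finrank_euclideanSpace_fin] at h3
    omega
  have h2 := Subspace.biUnion_ne_univ_of_top_notMem hs
  rw [Set.ne_univ_iff_exists_notMem] at h2
  obtain ⟨z, hz⟩ := h2
  refine ⟨z, fun U hU hc hzU => hz ?_⟩
  rw [Set.mem_iUnion₂]
  refine ⟨Submodule.span ℝ (U : Set (E d)), ?_, hzU⟩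
  rw [Finset.mem_image]
  exact ⟨U, Finset.mem_filter.mpr ⟨Finset.mem_powerset.mpr hU, hc⟩, rfl⟩

theorem lp_lt {d : ℕ} {V : Finset (E d)} {e F F' : Finset (E d)} {z : E d} {c : E d → ℝ}
    (hF : F ⊆ V) (heF' : e ⊆ F') (hc : ∑ v ∈ F, c v • v = z)
    (hp : ∀ v ∈ F, v ∉ e → 0 < c v) (hne : ¬ F ⊆ F') {l l' : E d →L[ℝ] ℝ}
    (hl : ∀ w ∈ F, l w = 1) (hl' : ∀ w ∈ F', l' w = 1) (hl'2 : ∀ v ∈ V, v ∉ F' → l' v < 1) :
    l' z < l z := by
  have h1 : l z = ∑ v ∈ F, c v := by
    rw [← hc, map_sum]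
    refine Finset.sum_congr rfl fun v hv => ?_
    rw [map_smul, hl v hv, smul_eq_mul, mul_one]
  have h2 : l' z = ∑ v ∈ F, c v * l' v := by
    rw [← hc, map_sum]
    refine Finset.sum_congr rfl fun v hv => ?_
    rw [map_smul, smul_eq_mul]
  obtain ⟨v0, hv0, hv0'⟩ := Finset.not_subset.mp hne
  rw [h1, h2]
  refine Finset.sum_lt_sum ?_ ⟨v0, hv0, ?_⟩
  · intro v hv
    by_cases hvF : v ∈ F'
    · rw [hl' v hvF, mul_one]
    · have h3 := hp v hv fun h => hvF (heF' h)
      have h4 := hl'2 v (hF hv) hvF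
      nlinarith
  · have h3 := hp v0 hv0 fun h => hv0' (heF' h)
    have h4 := hl'2 v0 (hF hv0) hv0'
    nlinarith

/-- at most one facet through `e` sees `z` with positive coordinates. -/
theorem lp_unique {d : ℕ} {V : Finset (E d)} {e F F' : Finset (E d)} {z : E d} {c c' : E d → ℝ}
    (hF : F ⊆ V) (hF' : F' ⊆ V) (hcard : F.card = F'.card) (sF : Spt V F) (sF' : Spt V F')
    (heF : e ⊆ F) (heF' : e ⊆ F') (hc : ∑ v ∈ F, c v • v = z) (hc' : ∑ v ∈ F', c' v • v = z)
    (hp : ∀ v ∈ F, v ∉ e → 0 < c v) (hp' : ∀ v ∈ F', v ∉ e → 0 < c' v) : F = F' := by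
  obtain ⟨l, hl1, hl2⟩ := sF
  obtain ⟨l', hl1', hl2'⟩ := sF'
  by_contra hne
  have h1 : ¬ F ⊆ F' := fun h => hne (Finset.eq_of_subset_of_card_le h hcard.ge)
  have h2 : ¬ F' ⊆ F := fun h => hne (Finset.eq_of_subset_of_card_le h hcard.le).symm
  have h3 := lp_lt hF heF' hc hp h1 hl1 hl1' hl2'
  have h4 := lp_lt hF' heF hc' hp' h2 hl1' hl1 hl2
  exact lt_asymm h3 h4

end Pool.Agent.H.MP_4bcbbd_co
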