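import Pool.Agent.H.MP_4bcbbd_co.Base

/-!
MP_4bcbbd_co: from polytopes to combinatorial data.
-/

set_option autoImplicit false

namespace Pool.Agent.H.MP_4bcbbd_co

variable {d : ℕ}

theorem exists_data (hd : 0 < d) {P : Set (E d)} (hP : IsPolytope P) (hs : IsCentSymm P) :
    ∃ V : Finset (E d), CSData V ∧ P = convexHull ℝ (V : Set (E d)) := by
  obtain ⟨⟨S, hS, hPS⟩, hint⟩ := hP
  have hconv : Convex ℝ P := by rw [hPS]; exact convex_convexHull ℝ S
  have hcomp : IsCompact P := by rw [hPS]; exact hS.isCompact_convexHull ℝ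
  have hext : (P.extremePoints ℝ).Finite := by
    refine hS.subset ?_
    rw [hPS]
    exact extremePoints_convexHull_subset
  have hnt : Nontrivial (E d) := by
    haveI : Nonempty (Fin d) := ⟨⟨0, hd⟩⟩
    infer_instance
  have hVP : convexHull ℝ (P.extremePoints ℝ) = P := by
    have h1 := closure_convexHull_extremePoints hcomp hconv
    rwa [(hext.isClosed_convexHull ℝ).closure_eq] at h1
  -- the origin is an interior point
  have hneg : -P = P := by
    ext x
    rw [Set.mem_neg]
    exact ⟨fun h => by simpa using hs _ h, fun h => hs _ h⟩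
  have h0 : (0 : E d) ∈ interior P := by
    obtain ⟨x, hx⟩ := hint
    have h1 : -x ∈ interior P := by
      have h2 : interior (-P) = -interior P := by
        have h3 := (Homeomorph.neg (E d)).preimage_interior P
        exact h3.symm
      rw [hneg] at h2
      rw [h2, Set.mem_neg, neg_neg]
      exact hx
    have h2 := hconv.interior.midpoint_mem hx h1
    rwa [midpoint_self_neg] at h2
  have h0P : (0 : E d) ∈ P := interior_subset h0
  have hne0 : ∀ v ∈ P.extremePoints ℝ, v ≠ 0 := by
    rintro v hv rfl
    exact Set.disjoint_left.1 (disjoint_interior_extremePoints P) h0 hv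
  refine ⟨hext.toFinset, ⟨?_, ?_, ?_⟩, ?_⟩
  · intro v hv
    rw [Set.Finite.mem_toFinset] at hv ⊢
    refine ⟨hs v hv.1, ?_⟩
    intro x hx y hy hxy
    have h1 : v ∈ openSegment ℝ (-x) (-y) := by
      obtain ⟨a, b, ha, hb, hab, h2⟩ := hxy
      refine ⟨a, b, ha, hb, hab, ?_⟩
      rw [smul_neg, smul_neg, ← neg_add, h2, neg_neg]
    have h2 := hv.2 (hs x hx) (hs y hy) h1
    rw [← h2, neg_neg]
  · intro v hv
    rw [Set.Finite.mem_toFinset] at hv
    set Q : Set (E d) := convexHull ℝ (insert 0 (P.extremePoints ℝ \ {v})) with hQ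
    have hfin : (insert 0 (P.extremePoints ℝ \ {v})).Finite :=
      (hext.subset Set.sdiff_subset).insert 0
    have hQP : Q ⊆ P := by
      refine convexHull_min ?_ hconv
      rintro y (rfl | hy)
      · exact h0P
      · exact hy.1.1
    have hvQ : v ∉ Q := by
      intro hcon
      have h1 : v ∈ Q.extremePoints ℝ :=
        inter_extremePoints_subset_extremePoints_of_subset hQP ⟨hcon, hv⟩
      rcases extremePoints_convexHull_subset h1 with h2 | h2
      · exact hne0 v hv h2
      · exact h2.2 rfl
    obtain ⟨f, u, hf, hu⟩ := geometric_hahn_banach_closed_point (convex_convexHull ℝ _)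
      (hfin.isClosed_convexHull ℝ) hvQ
    have hu0 : 0 < u := by
      have h1 := hf 0 (subset_convexHull ℝ _ (Set.mem_insert _ _))
      rwa [map_zero] at h1
    have hfv : 0 < f v := hu0.trans hu
    refine ⟨(f v)⁻¹ • f, ?_, ?_⟩
    · intro w hw
      rw [Finset.mem_singleton] at hw
      subst hw
      show (f w)⁻¹ * f w = 1
      exact inv_mul_cancel₀ hfv.ne'
    · intro w hw hwv
      rw [Set.Finite.mem_toFinset] at hw
      rw [Finset.mem_singleton] at hwv
      have h1 := (hf w (subset_convexHull ℝ _ (Set.mem_insert_of_mem _ ⟨hw, hwv⟩))).trans hu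
      show (f v)⁻¹ * f w < 1
      rw [inv_mul_lt_iff₀ hfv, mul_one]
      exact h1
  · rw [Set.Finite.coe_toFinset]
    refine Submodule.eq_top_of_nonempty_interior' _ ⟨0, ?_⟩
    refine interior_mono ?_ h0
    have h1 : convexHull ℝ (P.extremePoints ℝ) ⊆
        (Submodule.span ℝ (P.extremePoints ℝ) : Set (E d)) :=
      convexHull_min Submodule.subset_span (Submodule.convex _)
    rwa [hVP] at h1
  · rw [Set.Finite.coe_toFinset]
    exact hVP.symm

end Pool.Agent.H.MP_4bcbbd_co
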