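import Pool.Agent.H.MP_4bcbbd_co.Reps

/-!
MP_4bcbbd_co: counting edges through the graph of full pairs.
-/

set_option autoImplicit false

namespace Pool.Agent.H.MP_4bcbbd_co

/-- the number of edges does not depend on the instance. -/
lemma count_inst {W : Type*} (G : SimpleGraph W) (i1 i2 : Fintype G.edgeSet) :
    (@SimpleGraph.edgeFinset _ G i1).card = (@SimpleGraph.edgeFinset _ G i2).card := by
  have h : i1 = i2 := Subsingleton.elim _ _
  rw [h]

open Classical in
private lemma Count_neg {d : ℕ} {V : Finset (E d)} (hV : CSData V) {p q : E d}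
    (h : Spt V {p, q}) : Spt V {-p, -q} := by
  obtain ⟨l, h1, h2⟩ := h
  have hp : l p = 1 := h1 p (by simp)
  have hq : l q = 1 := h1 q (by simp)
  refine ⟨-l, ?_, ?_⟩
  · intro w hw
    rw [Finset.mem_insert, Finset.mem_singleton] at hw
    rcases hw with rfl | rfl
    · simp [hp]
    · simp [hq]
  · intro v hv hw
    have h3 : l (-v) < 1 := by
      refine h2 (-v) (hV.neg v hv) ?_
      intro h4
      rw [Finset.mem_insert, Finset.mem_singleton] at h4
      apply hw
      rw [Finset.mem_insert, Finset.mem_singleton]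
      rcases h4 with h4 | h4
      · left
        rw [← h4, neg_neg]
      · right
        rw [← h4, neg_neg]
    simpa using h3

open Classical in
/-- the candidates over a pair of indices. -/
private noncomputable def Count_C {d n : ℕ} (r : Fin n → E d) (p : Fin n × Fin n) :
    Finset (Finset (E d)) :=
  {{r p.1, r p.2}, {r p.1, -r p.2}, {-r p.1, r p.2}, {-r p.1, -r p.2}}

open Classical in
private noncomputable def Count_T {d n : ℕ} (V : Finset (E d)) (r : Fin n → E d)
    (p : Fin n × Fin n) : Finset (Finset (E d)) :=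
  (Count_C r p).filter (Spt V)

open Classical in
private lemma Count_card {d n : ℕ} {V : Finset (E d)} (hV : CSData V) {r : Fin n → E d}
    (hr : Reps V r) {p : Fin n × Fin n} (hp : p.1 < p.2) :
    (Count_T V r p).card ≤ 2 + 2 * (if (fullGraph V hV r hr).Adj p.1 p.2 then 1 else 0) := by
  have hmem : ∀ W, W ∈ Count_T V r p ↔ (W = {r p.1, r p.2} ∨ W = {r p.1, -r p.2} ∨
      W = {-r p.1, r p.2} ∨ W = {-r p.1, -r p.2}) ∧ Spt V W := by
    intro W
    unfold Count_T Count_C
    rw [Finset.mem_filter]
    simp only [Finset.mem_insert, Finset.mem_singleton]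
  by_cases hA : (fullGraph V hV r hr).Adj p.1 p.2
  · rw [if_pos hA]
    unfold Count_T
    refine (Finset.card_filter_le _ _).trans ?_
    unfold Count_C
    exact Finset.card_le_four
  · rw [if_neg hA]
    have h2 : ∀ A B : Finset (E d), (∀ W ∈ Count_T V r p, W = A ∨ W = B) →
        (Count_T V r p).card ≤ 2 + 2 * 0 := by
      intro A B h
      have h3 : Count_T V r p ⊆ {A, B} := by
        intro W hW
        rw [Finset.mem_insert, Finset.mem_singleton]
        exact h W hW
      exact (Finset.card_le_card h3).trans Finset.card_le_two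
    by_cases h1 : Spt V {r p.1, r p.2}
    · have h3 : ¬ Spt V {r p.1, -r p.2} := by
        intro h4
        apply hA
        refine ⟨hp.ne, hr.inj _ _ hp.ne, hr.anti _ _, ?_, ?_⟩
        · obtain ⟨l, hl1, hl2⟩ := h1
          refine ⟨l, hl1 _ (by simp), hl1 _ (by simp), fun v hv a b => hl2 v hv ?_⟩
          rw [Finset.mem_insert, Finset.mem_singleton]
          rintro (h | h)
          · exact a h
          · exact b h
        · obtain ⟨l, hl1, hl2⟩ := h4
          have h5 : l (-r p.2) = 1 := hl1 _ (by simp)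
          rw [map_neg] at h5
          refine ⟨l, hl1 _ (by simp), by linarith, fun v hv a b => hl2 v hv ?_⟩
          rw [Finset.mem_insert, Finset.mem_singleton]
          rintro (h | h)
          · exact a h
          · exact b h
      refine h2 {r p.1, r p.2} {-r p.1, -r p.2} fun W hW => ?_
      obtain ⟨h4, h5⟩ := (hmem W).1 hW
      rcases h4 with rfl | rfl | rfl | rfl
      · exact Or.inl rfl
      · exact absurd h5 h3
      · exfalso
        apply h3
        have h6 := Count_neg hV h5
        rwa [neg_neg] at h6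
      · exact Or.inr rfl
    · refine h2 {r p.1, -r p.2} {-r p.1, r p.2} fun W hW => ?_
      obtain ⟨h4, h5⟩ := (hmem W).1 hW
      rcases h4 with rfl | rfl | rfl | rfl
      · exact absurd h5 h1
      · exact Or.inl rfl
      · exact Or.inr rfl
      · exfalso
        apply h1
        have h6 := Count_neg hV h5
        rwa [neg_neg, neg_neg] at h6

open Classical in
private lemma Count_cover {d n : ℕ} {V : Finset (E d)} {r : Fin n → E d}
    (hr : Reps V r) {W : Finset (E d)} (hW : W ∈ fc V 2) :
    ∃ p : Fin n × Fin n, p.1 < p.2 ∧ W ∈ Count_T V r p := by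
  rw [mem_fc] at hW
  obtain ⟨hWV, hcard, hS⟩ := hW
  obtain ⟨u, v, huv, rfl⟩ := Finset.card_eq_two.1 hcard
  obtain ⟨l, hl1, hl2⟩ := hS
  have hu1 : l u = 1 := hl1 u (by simp)
  have hv1 : l v = 1 := hl1 v (by simp)
  have huv' : u ≠ -v := by
    intro h
    rw [h, map_neg, hv1] at hu1
    norm_num at hu1
  obtain ⟨i, hi⟩ := hr.surj u (hWV (by simp))
  obtain ⟨j, hj⟩ := hr.surj v (hWV (by simp))
  have hij : i ≠ j := by
    rintro rfl
    rcases hi with hi | hi <;> rcases hj with hj | hj
    · exact huv (hi.trans hj.symm)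
    · exact huv' (by rw [hi, hj, neg_neg])
    · exact huv' (by rw [hi, hj])
    · exact huv (hi.trans hj.symm)
  have hS : Spt V {u, v} := ⟨l, hl1, hl2⟩
  rcases lt_or_gt_of_ne hij with h | h
  · refine ⟨(i, j), h, ?_⟩
    unfold Count_T Count_C
    rw [Finset.mem_filter]
    refine ⟨?_, hS⟩
    simp only [Finset.mem_insert, Finset.mem_singleton]
    rcases hi with rfl | rfl <;> rcases hj with rfl | rfl
    · exact Or.inl rfl
    · exact Or.inr (Or.inl rfl)
    · exact Or.inr (Or.inr (Or.inl rfl))
    · exact Or.inr (Or.inr (Or.inr rfl))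
  · refine ⟨(j, i), h, ?_⟩
    unfold Count_T Count_C
    rw [Finset.mem_filter]
    refine ⟨?_, hS⟩
    simp only [Finset.mem_insert, Finset.mem_singleton]
    rcases hi with rfl | rfl <;> rcases hj with rfl | rfl
    · exact Or.inl (Finset.pair_comm _ _)
    · exact Or.inr (Or.inr (Or.inl (Finset.pair_comm _ _)))
    · exact Or.inr (Or.inl (Finset.pair_comm _ _))
    · exact Or.inr (Or.inr (Or.inr (Finset.pair_comm _ _)))

open Classical in
private lemma Count_edges {n : ℕ} (G : SimpleGraph (Fin n)) :
    (Finset.univ.filter fun p : Fin n × Fin n => p.1 < p.2 ∧ G.Adj p.1 p.2).card ≤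
      G.edgeFinset.card := by
  refine Finset.card_le_card_of_injOn (fun p => s(p.1, p.2)) ?_ ?_
  · intro p hp
    have hp' := (Finset.mem_filter.1 hp).2
    rw [Finset.mem_coe, SimpleGraph.mem_edgeFinset, SimpleGraph.mem_edgeSet]
    exact hp'.2
  · intro p hp q hq h
    have hp' := (Finset.mem_filter.1 hp).2.1
    have hq' := (Finset.mem_filter.1 hq).2.1
    rcases Sym2.eq_iff.1 h with ⟨h1, h2⟩ | ⟨h1, h2⟩
    · exact Prod.ext h1 h2
    · exfalso
      rw [h1, h2] at hp'
      exact lt_asymm hp' hq'

open Classical in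
theorem count_edges {d n : ℕ} (V : Finset (E d)) (hV : CSData V) (r : Fin n → E d)
    (hr : Reps V r) :
    (fc V 2).card ≤ n * (n - 1) + 2 * (fullGraph V hV r hr).edgeFinset.card := by
  set P : Finset (Fin n × Fin n) := Finset.univ.filter fun p => p.1 < p.2 with hP
  set G := fullGraph V hV r hr with hG
  have h1 : fc V 2 ⊆ P.biUnion (Count_T V r) := by
    intro W hW
    obtain ⟨p, hp, hWp⟩ := Count_cover hr hW
    exact Finset.mem_biUnion.2 ⟨p, Finset.mem_filter.2 ⟨Finset.mem_univ _, hp⟩, hWp⟩
  have h2 : (fc V 2).card ≤ ∑ p ∈ P, (2 + 2 * (if G.Adj p.1 p.2 then 1 else 0)) := by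
    refine (Finset.card_le_card h1).trans (Finset.card_biUnion_le.trans ?_)
    refine Finset.sum_le_sum fun p hp => ?_
    exact Count_card hV hr (Finset.mem_filter.1 hp).2
  have h3 : ∑ p ∈ P, (2 + 2 * (if G.Adj p.1 p.2 then 1 else 0)) =
      2 * P.card + 2 * (P.filter fun p => G.Adj p.1 p.2).card := by
    rw [Finset.sum_add_distrib, ← Finset.mul_sum, Finset.sum_const,
      smul_eq_mul, mul_comm P.card 2, ← Finset.card_filter (fun p : Fin n × Fin n => G.Adj p.1 p.2) P]
  have h4 : (P.filter fun p => G.Adj p.1 p.2).card ≤ G.edgeFinset.card := by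
    rw [hP, Finset.filter_filter]
    exact Count_edges G
  have h5 : P.card ≤ n.choose 2 := by
    obtain ⟨K, hK⟩ : ∃ K : SimpleGraph (Fin n), K = ⊤ := ⟨_, rfl⟩
    have h6 := Count_edges K
    have h10 : K.edgeFinset.card = n.choose 2 := by
      have h9 := SimpleGraph.card_edgeFinset_top_eq_card_choose_two (V := Fin n)
      rw [Fintype.card_fin] at h9
      subst hK
      exact (count_inst _ _ _).trans h9
    rw [h10] at h6
    refine le_trans (Finset.card_le_card ?_) h6
    intro p hp
    have h7 := (Finset.mem_filter.1 hp).2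
    have h8 : K.Adj p.1 p.2 := by
      rw [hK]
      exact (SimpleGraph.top_adj _ _).2 h7.ne
    rw [Finset.mem_filter]
    exact ⟨Finset.mem_univ _, h7, h8⟩
  have h6 : 2 * n.choose 2 = n * (n - 1) := by
    rw [Nat.choose_two_right]
    exact Nat.mul_div_cancel' (Nat.even_mul_pred_self n).two_dvd
  calc (fc V 2).card ≤ 2 * P.card + 2 * (P.filter fun p => G.Adj p.1 p.2).card := h3 ▸ h2
    _ ≤ n * (n - 1) + 2 * G.edgeFinset.card := by omega

end Pool.Agent.H.MP_4bcbbd_co
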