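import Pool.Agent.H.MP_4bcbbd_co.Base

/-!
MP_4bcbbd_co: the symmetric moment curve in `ℝ^4`, supporting functionals.
-/

set_option autoImplicit false

namespace Pool.Agent.H.MP_4bcbbd_co

open Real

/-- the curve `(cos θ, sin θ, cos 3θ, sin 3θ)`. -/
noncomputable def U (θ : ℝ) : E 4 := !₂[cos θ, sin θ, cos (3 * θ), sin (3 * θ)]

theorem U_add_pi (θ : ℝ) : U (θ + π) = -U θ := by
  have h1 : cos (3 * (θ + π)) = -cos (3 * θ) := by
    rw [show 3 * (θ + π) = (3 * θ + π) + 2 * π by ring, cos_add_two_pi, cos_add_pi]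
  have h2 : sin (3 * (θ + π)) = -sin (3 * θ) := by
    rw [show 3 * (θ + π) = (3 * θ + π) + 2 * π by ring, sin_add_two_pi, sin_add_pi]
  ext i
  fin_cases i
  · simp [U, cos_add_pi]
  · simp [U, sin_add_pi]
  · simp [U, h1]
  · simp [U, h2]

theorem U_eq_iff (θ φ : ℝ) : U θ = U φ ↔ (cos θ = cos φ ∧ sin θ = sin φ) := by
  constructor
  · intro h
    have h0 := congrArg (fun v : E 4 => v 0) h
    have h1 := congrArg (fun v : E 4 => v 1) h
    simp [U] at h0 h1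
    exact ⟨h0, h1⟩
  · rintro ⟨h0, h1⟩
    unfold U
    rw [cos_three_mul, cos_three_mul, sin_three_mul, sin_three_mul, h0, h1]

theorem curve_period (θ : ℝ) (k : ℤ) : U (θ + 2 * k * π) = U θ := by
  rw [U_eq_iff]
  constructor
  · rw [show θ + 2 * k * π = θ + k * (2 * π) by ring, cos_add_int_mul_two_pi]
  · rw [show θ + 2 * k * π = θ + k * (2 * π) by ring, sin_add_int_mul_two_pi]

/-- supporting functional at two points of the curve at distance less than `2π/3`. -/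
theorem U_support (α β : ℝ) (h : |α - β| < 2 * π / 3) :
    ∃ l : E 4 →L[ℝ] ℝ, l (U α) = 1 ∧ l (U β) = 1 ∧
      ∀ θ, U θ ≠ U α → U θ ≠ U β → l (U θ) < 1 := by
  set μ : ℝ := (α + β) / 2 with hμ
  set x0 : ℝ := cos ((α - β) / 2) with hx0
  have hx : 1 / 2 < x0 := by
    rw [hx0, ← cos_abs, ← cos_pi_div_three]
    apply cos_lt_cos_of_nonneg_of_le_pi (abs_nonneg _)
    · have := pi_pos
      linarith
    · rw [abs_div, abs_two]
      linarith
  have hx3 : 0 < x0 ^ 3 := by positivity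
  let l : E 4 →L[ℝ] ℝ := (1 / (2 * x0 ^ 3)) • (((3 * x0 ^ 2 - 3 / 4) * cos μ) •
    (EuclideanSpace.proj 0 : E 4 →L[ℝ] ℝ) + ((3 * x0 ^ 2 - 3 / 4) * sin μ) •
    (EuclideanSpace.proj 1 : E 4 →L[ℝ] ℝ) - ((1 / 4) * cos (3 * μ)) •
    (EuclideanSpace.proj 2 : E 4 →L[ℝ] ℝ) - ((1 / 4) * sin (3 * μ)) •
    (EuclideanSpace.proj 3 : E 4 →L[ℝ] ℝ))
  have hl : ∀ θ, l (U θ) = 1 - (cos (θ - μ) - x0) ^ 2 * (cos (θ - μ) + 2 * x0) /
      (2 * x0 ^ 3) := by
    intro θ
    have h1 : l (U θ) = (1 / (2 * x0 ^ 3)) * ((3 * x0 ^ 2 - 3 / 4) * cos μ * cos θ +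
        (3 * x0 ^ 2 - 3 / 4) * sin μ * sin θ - (1 / 4) * cos (3 * μ) * cos (3 * θ) -
        (1 / 4) * sin (3 * μ) * sin (3 * θ)) := by
      simp [l, U]
    have h2 : cos (3 * θ - 3 * μ) = 4 * cos (θ - μ) ^ 3 - 3 * cos (θ - μ) := by
      rw [← mul_sub, cos_three_mul]
    rw [cos_sub (3 * θ)] at h2
    have h3 : (3 * x0 ^ 2 - 3 / 4) * cos μ * cos θ +
        (3 * x0 ^ 2 - 3 / 4) * sin μ * sin θ - (1 / 4) * cos (3 * μ) * cos (3 * θ) -
        (1 / 4) * sin (3 * μ) * sin (3 * θ) =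
        2 * x0 ^ 3 - (cos (θ - μ) - x0) ^ 2 * (cos (θ - μ) + 2 * x0) := by
      have h4 := cos_sub θ μ
      linear_combination (-1 / 4) * h2 - (3 * x0 ^ 2 - 3 / 4) * h4
    rw [h1, h3]
    field_simp
  refine ⟨l, ?_, ?_, ?_⟩
  · rw [hl, hμ, show α - (α + β) / 2 = (α - β) / 2 by ring, ← hx0]
    simp
  · rw [hl, hμ, show β - (α + β) / 2 = -((α - β) / 2) by ring, cos_neg, ← hx0]
    simp
  · intro θ h1 h2
    rw [hl]
    have h3 : cos (θ - μ) ≠ x0 := by
      intro h3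
      rw [hx0, cos_eq_cos_iff] at h3
      obtain ⟨k, h4 | h4⟩ := h3
      · apply h1
        have h5 : α = θ + 2 * k * π := by linarith
        rw [h5, curve_period]
      · apply h2
        have h5 : θ = β + 2 * k * π := by linarith
        rw [h5, curve_period]
    have h4 : 0 < (cos (θ - μ) - x0) ^ 2 := by
      have := sub_ne_zero.mpr h3
      positivity
    have h5 : 0 < cos (θ - μ) + 2 * x0 := by
      have := neg_one_le_cos (θ - μ)
      linarith
    have h6 : 0 < (cos (θ - μ) - x0) ^ 2 * (cos (θ - μ) + 2 * x0) / (2 * x0 ^ 3) := by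
      positivity
    linarith

end Pool.Agent.H.MP_4bcbbd_co
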