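import Pool.Agent.H.MP_4bcbbd_co.Curve

/-!
MP_4bcbbd_co: the symmetric moment curve in `ℝ^4`, independence and finiteness.
-/

set_option autoImplicit false

namespace Pool.Agent.H.MP_4bcbbd_co

open Real

/-- the point `exp (i t)` -/
private noncomputable def cz (t : ℝ) : ℂ := Complex.cos t + Complex.sin t * Complex.I

/-- the conjugate point -/
private noncomputable def cw (t : ℝ) : ℂ := Complex.cos t - Complex.sin t * Complex.I

private theorem cz_mul_cw (t : ℝ) : cz t * cw t = 1 := by
  unfold cz cw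
  have h := Complex.sin_sq_add_cos_sq (t : ℂ)
  have hI := Complex.I_mul_I
  linear_combination h - (Complex.sin (t : ℂ)) ^ 2 * hI

private theorem cz_pow (t : ℝ) (n : ℕ) :
    cz t ^ n = Complex.cos (n * t) + Complex.sin (n * t) * Complex.I :=
  Complex.cos_add_sin_mul_I_pow n (t : ℂ)

private theorem cw_pow (t : ℝ) (n : ℕ) :
    cw t ^ n = Complex.cos (n * t) - Complex.sin (n * t) * Complex.I := by
  have h := Complex.cos_add_sin_mul_I_pow n (-(t : ℂ))
  have h1 : Complex.cos (-(t : ℂ)) + Complex.sin (-(t : ℂ)) * Complex.I = cw t := by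
    unfold cw
    rw [Complex.cos_neg, Complex.sin_neg]
    ring
  rw [h1] at h
  rw [h, mul_neg, Complex.cos_neg, Complex.sin_neg]
  ring

private theorem cz_inj {s t : ℝ} (h : cz s = cz t) : cos s = cos t ∧ sin s = sin t := by
  unfold cz at h
  rw [← Complex.ofReal_cos, ← Complex.ofReal_sin, ← Complex.ofReal_cos, ← Complex.ofReal_sin] at h
  have h1 := congrArg Complex.re h
  have h2 := congrArg Complex.im h
  simp at h1 h2
  exact ⟨h1, h2⟩

private theorem cz_add_pi (t : ℝ) : cz (t + π) = -cz t := by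
  unfold cz
  rw [Complex.ofReal_add, Complex.cos_add_pi, Complex.sin_add_pi]
  ring

/-- four points of the curve which are different up to sign are linearly independent. -/
theorem U_indep (θ : Fin 4 → ℝ) (h : ∀ i j, i ≠ j → U (θ i) ≠ U (θ j) ∧ U (θ i) ≠ -U (θ j)) :
    LinearIndependent ℝ (fun i => U (θ i)) := by
  rw [Fintype.linearIndependent_iff]
  intro g hg
  have hinj : Function.Injective (fun i => cz (θ i) ^ 2) := by
    intro i j hij
    by_contra hne
    have hij' : cz (θ i) ^ 2 = cz (θ j) ^ 2 := hij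
    rcases sq_eq_sq_iff_eq_or_eq_neg.1 hij' with h1 | h1
    · exact (h i j hne).1 ((U_eq_iff _ _).2 (cz_inj h1))
    · rw [← cz_add_pi] at h1
      apply (h i j hne).2
      rw [← U_add_pi]
      exact (U_eq_iff _ _).2 (cz_inj h1)
  have hc : ∀ k : Fin 4, ∑ i, g i * (U (θ i)) k = 0 := by
    intro k
    have := congrArg (fun v : E 4 => v k) hg
    simpa using this
  have c0 : ∑ i, (g i : ℂ) * Complex.cos (θ i) = 0 := by
    have := hc 0
    simp only [U] at this
    have h2 : ((∑ i, g i * cos (θ i) : ℝ) : ℂ) = 0 := by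
      rw [show (∑ i, g i * cos (θ i) : ℝ) = 0 by simpa using this]; simp
    rw [← h2]; push_cast; rfl
  have c1 : ∑ i, (g i : ℂ) * Complex.sin (θ i) = 0 := by
    have := hc 1
    simp only [U] at this
    have h2 : ((∑ i, g i * sin (θ i) : ℝ) : ℂ) = 0 := by
      rw [show (∑ i, g i * sin (θ i) : ℝ) = 0 by simpa using this]; simp
    rw [← h2]; push_cast; rfl
  have c2 : ∑ i, (g i : ℂ) * Complex.cos (3 * θ i) = 0 := by
    have := hc 2
    simp only [U] at this
    have h2 : ((∑ i, g i * cos (3 * θ i) : ℝ) : ℂ) = 0 := by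
      rw [show (∑ i, g i * cos (3 * θ i) : ℝ) = 0 by simpa using this]; simp
    rw [← h2]; push_cast; rfl
  have c3 : ∑ i, (g i : ℂ) * Complex.sin (3 * θ i) = 0 := by
    have := hc 3
    simp only [U] at this
    have h2 : ((∑ i, g i * sin (3 * θ i) : ℝ) : ℂ) = 0 := by
      rw [show (∑ i, g i * sin (3 * θ i) : ℝ) = 0 by simpa using this]; simp
    rw [← h2]; push_cast; rfl
  have hv := Matrix.eq_zero_of_forall_pow_sum_mul_pow_eq_zero
    (f := fun i => cz (θ i) ^ 2) (v := fun i => (g i : ℂ) * cw (θ i) ^ 3) hinj (by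
      intro k
      have e1 : ∀ t, cw t ^ 3 * cz t ^ 2 = cw t := fun t => by
        have := cz_mul_cw t
        linear_combination (cw t * (cz t * cw t + 1)) * this
      have e2 : ∀ t, cw t ^ 3 * (cz t ^ 2) ^ 2 = cz t := fun t => by
        have := cz_mul_cw t
        linear_combination (cz t * ((cz t * cw t) ^ 2 + cz t * cw t + 1)) * this
      have e3 : ∀ t, cw t ^ 3 * (cz t ^ 2) ^ 3 = cz t ^ 3 := fun t => by
        have := cz_mul_cw t
        linear_combination (cz t ^ 3 * ((cz t * cw t) ^ 2 + cz t * cw t + 1)) * this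
      have d0 : ∀ x : Fin 4, (g x : ℂ) * cw (θ x) ^ 3 * (cz (θ x) ^ 2) ^ 0 =
          g x * Complex.cos (3 * θ x) - g x * Complex.sin (3 * θ x) * Complex.I := by
        intro x
        rw [cw_pow]
        push_cast
        ring
      have d1 : ∀ x : Fin 4, (g x : ℂ) * cw (θ x) ^ 3 * (cz (θ x) ^ 2) ^ 1 =
          g x * Complex.cos (θ x) - g x * Complex.sin (θ x) * Complex.I := by
        intro x
        rw [pow_one, mul_assoc, e1, cw]
        ring
      have d2 : ∀ x : Fin 4, (g x : ℂ) * cw (θ x) ^ 3 * (cz (θ x) ^ 2) ^ 2 =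
          g x * Complex.cos (θ x) + g x * Complex.sin (θ x) * Complex.I := by
        intro x
        rw [mul_assoc, e2, cz]
        ring
      have d3 : ∀ x : Fin 4, (g x : ℂ) * cw (θ x) ^ 3 * (cz (θ x) ^ 2) ^ 3 =
          g x * Complex.cos (3 * θ x) + g x * Complex.sin (3 * θ x) * Complex.I := by
        intro x
        rw [mul_assoc, e3, cz_pow]
        push_cast
        ring
      fin_cases k
      · show ∑ x, (g x : ℂ) * cw (θ x) ^ 3 * (cz (θ x) ^ 2) ^ 0 = 0
        rw [Finset.sum_congr rfl fun x _ => d0 x, Finset.sum_sub_distrib, ← Finset.sum_mul, c2, c3]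
        simp
      · show ∑ x, (g x : ℂ) * cw (θ x) ^ 3 * (cz (θ x) ^ 2) ^ 1 = 0
        rw [Finset.sum_congr rfl fun x _ => d1 x, Finset.sum_sub_distrib, ← Finset.sum_mul, c0, c1]
        simp
      · show ∑ x, (g x : ℂ) * cw (θ x) ^ 3 * (cz (θ x) ^ 2) ^ 2 = 0
        rw [Finset.sum_congr rfl fun x _ => d2 x, Finset.sum_add_distrib, ← Finset.sum_mul, c0, c1]
        simp
      · show ∑ x, (g x : ℂ) * cw (θ x) ^ 3 * (cz (θ x) ^ 2) ^ 3 = 0
        rw [Finset.sum_congr rfl fun x _ => d3 x, Finset.sum_add_distrib, ← Finset.sum_mul, c2, c3]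
        simp)
  intro i
  have h1 := congrFun hv i
  have h2 : cw (θ i) ≠ 0 := by
    intro h0
    have := cz_mul_cw (θ i)
    rw [h0, mul_zero] at this
    exact zero_ne_one this
  have h3 : (g i : ℂ) * cw (θ i) ^ 3 = 0 := h1
  rcases mul_eq_zero.1 h3 with h4 | h4
  · exact_mod_cast h4
  · exact absurd (pow_eq_zero_iff (by norm_num) |>.1 h4) h2

/-- an affine hyperplane not through the origin meets every interval of the curve in finitely
many points only. -/
theorem U_finite (l : E 4 →L[ℝ] ℝ) (c : ℝ) (hc : c ≠ 0) (a b : ℝ) :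
    {θ | θ ∈ Set.Icc a b ∧ l (U θ) = c}.Finite := by
  by_contra hinf
  have hinf' : {θ | θ ∈ Set.Icc a b ∧ l (U θ) = c}.Infinite := hinf
  obtain ⟨x, -, hx⟩ := hinf'.exists_accPt_of_subset_isCompact isCompact_Icc
    (fun t ht => ht.1)
  have hform : ∀ t, l (U t) = cos t * l (EuclideanSpace.single 0 1) +
      sin t * l (EuclideanSpace.single 1 1) + cos (3 * t) * l (EuclideanSpace.single 2 1) +
      sin (3 * t) * l (EuclideanSpace.single 3 1) := by
    intro t
    have h1 : U t = cos t • EuclideanSpace.single (0 : Fin 4) (1 : ℝ) +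
      sin t • EuclideanSpace.single (1 : Fin 4) (1 : ℝ) +
      cos (3 * t) • EuclideanSpace.single (2 : Fin 4) (1 : ℝ) +
      sin (3 * t) • EuclideanSpace.single (3 : Fin 4) (1 : ℝ) := by
      ext i
      fin_cases i <;> simp [U]
    rw [h1, map_add, map_add, map_add, map_smul, map_smul, map_smul, map_smul]
    simp only [smul_eq_mul]
  have han : AnalyticOnNhd ℝ (fun t => l (U t) - c) Set.univ := by
    have heq : (fun t => l (U t) - c) = fun t => cos t * l (EuclideanSpace.single 0 1) +
      sin t * l (EuclideanSpace.single 1 1) + cos (3 * t) * l (EuclideanSpace.single 2 1) +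
      sin (3 * t) * l (EuclideanSpace.single 3 1) - c := by
      funext t
      rw [hform t]
    rw [heq]
    intro t _
    have hcos : ∀ y, AnalyticAt ℝ cos y := fun y => Real.analyticAt_cos
    have hsin : ∀ y, AnalyticAt ℝ sin y := fun y => Real.analyticAt_sin
    have h3 : AnalyticAt ℝ (fun t : ℝ => 3 * t) t := analyticAt_const.mul analyticAt_id
    exact (((((hcos t).mul analyticAt_const).add ((hsin t).mul analyticAt_const)).add
      (((hcos (3 * t)).comp h3).mul analyticAt_const)).add
      (((hsin (3 * t)).comp h3).mul analyticAt_const)).sub analyticAt_const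
  have hfreq : ∃ᶠ y in nhdsWithin x {x}ᶜ, l (U y) - c = 0 := by
    rw [accPt_iff_frequently_nhdsNE] at hx
    exact hx.mono fun y hy => by rw [hy.2, sub_self]
  have hzero := han.eqOn_zero_of_preconnected_of_frequently_eq_zero isPreconnected_univ
    (Set.mem_univ x) hfreq
  have h0 : l (U 0) - c = 0 := hzero (Set.mem_univ 0)
  have h1 : l (U (0 + π)) - c = 0 := hzero (Set.mem_univ (0 + π))
  rw [U_add_pi, map_neg] at h1
  apply hc
  linarith

end Pool.Agent.H.MP_4bcbbd_co
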