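import Pool.Agent.H.MP_4bcbbd_co.DSa

/-!
MP_4bcbbd_co: Dehn–Sommerville relations for simplicial centrally symmetric 4-polytopes.
-/

set_option autoImplicit false

namespace Pool.Agent.H.MP_4bcbbd_co

open scoped BigOperators

theorem fc_one {d : ℕ} {V : Finset (E d)} (hV : CSData V) : (fc V 1).card = V.card := by
  classical
  have h : fc V 1 = V.image (fun v => {v}) := by
    ext W
    rw [mem_fc, Finset.mem_image, Finset.card_eq_one]
    constructor
    · rintro ⟨hW, ⟨v, rfl⟩, -⟩
      exact ⟨v, hW (Finset.mem_singleton_self v), rfl⟩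
    · rintro ⟨v, hv, rfl⟩
      exact ⟨Finset.singleton_subset_iff.2 hv, ⟨v, rfl⟩, hV.vert v hv⟩
  rw [h, Finset.card_image_of_injective _ Finset.singleton_injective]

theorem dehn_sommerville {V : Finset (E 4)} (hV : CSData V) (hS : Simp V) :
    (fc V 4).card + V.card = (fc V 2).card ∧ (fc V 3).card = 2 * (fc V 4).card := by
  classical
  obtain ⟨z, hz⟩ := exists_generic V
  have hz' : Generic V (-z) := by
    intro U hU hc hmem
    exact hz U hU hc (by simpa using Submodule.neg_mem _ hmem)
  have hneg : ∀ F ∈ fc V 4, pos (-z) F = 4 - pos z F := by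
    intro F hF
    have := pos_neg hV hS hz hF
    omega
  have hle : ∀ F ∈ fc V 4, pos z F ≤ 4 := by
    intro F hF
    have := pos_neg hV hS hz hF
    omega
  have h1 := pos_sum hV hS hz 1 (by norm_num)
  have h1' := pos_sum hV hS hz' 1 (by norm_num)
  have h2 := pos_sum hV hS hz 2 (by norm_num)
  have h2' := pos_sum hV hS hz' 2 (by norm_num)
  have h3 := pos_sum hV hS hz 3 (by norm_num)
  have h3' := pos_sum hV hS hz' 3 (by norm_num)
  rw [fc_one hV] at h1 h1'
  have e1 : (∑ F ∈ fc V 4, (pos z F).choose 2) + (∑ F ∈ fc V 4, (pos (-z) F).choose 2) =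
      ∑ F ∈ fc V 4, 2 + (∑ F ∈ fc V 4, (pos z F).choose 3) +
        (∑ F ∈ fc V 4, (pos (-z) F).choose 3) := by
    rw [← Finset.sum_add_distrib, ← Finset.sum_add_distrib, ← Finset.sum_add_distrib]
    refine Finset.sum_congr rfl fun F hF => ?_
    rw [hneg F hF]
    have hk := hle F hF
    generalize pos z F = k at hk
    interval_cases k <;> decide
  have e2 : (∑ F ∈ fc V 4, (pos z F).choose 1) + (∑ F ∈ fc V 4, (pos (-z) F).choose 1) =
      ∑ F ∈ fc V 4, 4 := by
    rw [← Finset.sum_add_distrib]
    refine Finset.sum_congr rfl fun F hF => ?_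
    rw [hneg F hF]
    have hk := hle F hF
    generalize pos z F = k at hk
    interval_cases k <;> decide
  rw [Finset.sum_const, smul_eq_mul] at e1 e2
  norm_num at h1 h1' h2 h2' h3 h3'
  simp only [Nat.choose_one_right] at e2
  omega

end Pool.Agent.H.MP_4bcbbd_co
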