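import Pool.Agent.H.MP_4bcbbd_co.LPex

/-!
MP_4bcbbd_co: counting faces through a generic direction.
-/

set_option autoImplicit false

namespace Pool.Agent.H.MP_4bcbbd_co

open scoped BigOperators

open Classical in
/-- number of positive coordinates of `z` with respect to `F`. -/
noncomputable def pos {d : ℕ} (z : E d) (F : Finset (E d)) : ℕ :=
  (F.filter fun v => ∃ c : E d → ℝ, ∑ w ∈ F, c w • w = z ∧ 0 < c v).card

/-- a facet of a simplicial polytope is a basis. -/
theorem facet_sum {d : ℕ} {V : Finset (E d)} (hS : Simp V) {F : Finset (E d)} (hF : F ∈ fc V d)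
    (z : E d) : ∃ c : E d → ℝ, ∑ w ∈ F, c w • w = z ∧
      ∀ c' : E d → ℝ, ∑ w ∈ F, c' w • w = z → ∀ w ∈ F, c' w = c w := by
  classical
  obtain ⟨hFV, hcard, hs⟩ := mem_fc.1 hF
  have hli := hS F hFV hs
  have hspan : Submodule.span ℝ (F : Set (E d)) = ⊤ := by
    have := hli.span_eq_top_of_card_eq_finrank' (by simp [hcard])
    simpa using this
  have hzs : z ∈ Submodule.span ℝ (F : Set (E d)) := by
    rw [hspan]; trivial
  rw [Submodule.mem_span_finset] at hzs
  obtain ⟨c, -, hc⟩ := hzs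
  refine ⟨c, hc, fun c' hc' w hw => ?_⟩
  have h0 : ∑ i : F, (fun w : F => c' w - c w) i • (i : E d) = 0 := by
    have h1 : ∑ i : F, (fun w : F => c' w - c w) i • (i : E d)
        = ∑ w ∈ F, (c' w - c w) • w := by
      rw [← Finset.sum_coe_sort F (fun w => (c' w - c w) • w)]
    rw [h1]
    simp only [sub_smul]
    rw [Finset.sum_sub_distrib, hc, hc', sub_self]
  have h2 := Fintype.linearIndependent_iff.1 hli (fun w : F => c' w - c w) h0 ⟨w, hw⟩
  simpa [sub_eq_zero] using h2

theorem pos_sum {d : ℕ} {V : Finset (E d)} (hV : CSData V) (hS : Simp V) {z : E d}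
    (hz : Generic V z) (j : ℕ) (hj : j ≤ d) :
    (fc V j).card = ∑ F ∈ fc V d, (pos z F).choose (d - j) := by
  classical
  set P : Finset (E d) → Finset (E d) := fun F =>
    F.filter fun v => ∃ c : E d → ℝ, ∑ w ∈ F, c w • w = z ∧ 0 < c v with hP
  have hpos : ∀ F, (pos z F).choose (d - j) = ((P F).powersetCard (d - j)).card := by
    intro F
    rw [Finset.card_powersetCard]
    rfl
  simp only [hpos]
  rw [← Finset.card_sigma]
  symm
  refine Finset.card_bij (fun x _ => x.1 \ x.2) ?_ ?_ ?_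
  · rintro ⟨F, S⟩ hx
    rw [Finset.mem_sigma, Finset.mem_powersetCard] at hx
    obtain ⟨hF, hSP, hSc⟩ := hx
    obtain ⟨hFV, hcard, hs⟩ := mem_fc.1 hF
    have hSF : S ⊆ F := hSP.trans (Finset.filter_subset _ _)
    refine mem_fc.2 ⟨Finset.sdiff_subset.trans hFV, ?_, spt_subset hS hFV hs Finset.sdiff_subset⟩
    show (F \ S).card = j
    rw [Finset.card_sdiff_of_subset hSF]
    have hSc' : S.card = d - j := hSc
    have hcard' : F.card = d := hcard
    omega
  · rintro ⟨F, S⟩ hx ⟨F', S'⟩ hx' heq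
    rw [Finset.mem_sigma, Finset.mem_powersetCard] at hx hx'
    obtain ⟨hF, hSP, hSc⟩ := hx
    obtain ⟨hF', hSP', hSc'⟩ := hx'
    dsimp only at hF hSP hSc hF' hSP' hSc' heq
    obtain ⟨hFV, hcard, hs⟩ := mem_fc.1 hF
    obtain ⟨hFV', hcard', hs'⟩ := mem_fc.1 hF'
    have hSF : S ⊆ F := hSP.trans (Finset.filter_subset _ _)
    have hSF' : S' ⊆ F' := hSP'.trans (Finset.filter_subset _ _)
    obtain ⟨c, hc, hcu⟩ := facet_sum hS hF z
    obtain ⟨c', hc', hcu'⟩ := facet_sum hS hF' z
    have key : ∀ v ∈ F, v ∉ F \ S → 0 < c v := by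
      intro v hv hve
      have hvS : v ∈ S := by
        by_contra h
        exact hve (Finset.mem_sdiff.2 ⟨hv, h⟩)
      obtain ⟨-, c1, hc1, hp1⟩ := Finset.mem_filter.1 (hSP hvS)
      rw [← hcu c1 hc1 v hv]
      exact hp1
    have key' : ∀ v ∈ F', v ∉ F \ S → 0 < c' v := by
      intro v hv hve
      have hvS : v ∈ S' := by
        by_contra h
        exact hve (heq ▸ (Finset.mem_sdiff.2 ⟨hv, h⟩))
      obtain ⟨-, c1, hc1, hp1⟩ := Finset.mem_filter.1 (hSP' hvS)
      rw [← hcu' c1 hc1 v hv]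
      exact hp1
    have hFF : F = F' := lp_unique hFV hFV' (hcard.trans hcard'.symm) hs hs'
      Finset.sdiff_subset (heq ▸ Finset.sdiff_subset) hc hc' key key'
    subst hFF
    have hSS : S = S' := by
      rw [← Finset.sdiff_sdiff_eq_self hSF, heq, Finset.sdiff_sdiff_eq_self hSF']
    subst hSS
    rfl
  · intro e he
    obtain ⟨heV, hecard, hes⟩ := mem_fc.1 he
    obtain ⟨F, hFV, hFc, hFs, heF, c, hc, hcp⟩ := lp_exists hV hS hz heV hes
    refine ⟨⟨F, F \ e⟩, ?_, ?_⟩
    · rw [Finset.mem_sigma, Finset.mem_powersetCard]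
      refine ⟨mem_fc.2 ⟨hFV, hFc, hFs⟩, ?_, ?_⟩
      · intro v hv
        obtain ⟨hv1, hv2⟩ := Finset.mem_sdiff.1 hv
        exact Finset.mem_filter.2 ⟨hv1, c, hc, hcp v hv1 hv2⟩
      · show (F \ e).card = d - j
        rw [Finset.card_sdiff_of_subset heF, hFc, hecard]
    · exact Finset.sdiff_sdiff_eq_self heF

theorem pos_neg {d : ℕ} {V : Finset (E d)} (hV : CSData V) (hS : Simp V) {z : E d}
    (hz : Generic V z) {F : Finset (E d)} (hF : F ∈ fc V d) : pos z F + pos (-z) F = d := by
  classical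
  obtain ⟨hFV, hcard, hs⟩ := mem_fc.1 hF
  obtain ⟨c, hc, hcu⟩ := facet_sum hS hF z
  have hne : ∀ v ∈ F, c v ≠ 0 := by
    intro v hv h0
    apply hz (F.erase v) ((Finset.erase_subset _ _).trans hFV)
    · rw [Finset.card_erase_of_mem hv, hcard]
      have : 0 < F.card := Finset.card_pos.2 ⟨v, hv⟩
      omega
    · rw [← hc, ← Finset.add_sum_erase F _ hv, h0, zero_smul, zero_add]
      exact Submodule.sum_mem _ fun w hw =>
        Submodule.smul_mem _ _ (Submodule.subset_span (Finset.mem_coe.2 hw))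
  have h1 : pos z F = (F.filter fun v => 0 < c v).card := by
    unfold pos
    congr 1
    apply Finset.filter_congr
    intro v hv
    constructor
    · rintro ⟨c1, hc1, hp1⟩
      rw [← hcu c1 hc1 v hv]
      exact hp1
    · intro h
      exact ⟨c, hc, h⟩
  have h2 : pos (-z) F = (F.filter fun v => ¬ 0 < c v).card := by
    unfold pos
    congr 1
    apply Finset.filter_congr
    intro v hv
    constructor
    · rintro ⟨c1, hc1, hp1⟩
      have h3 : ∑ w ∈ F, (fun w => - c1 w) w • w = z := by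
        simp only [neg_smul, Finset.sum_neg_distrib, hc1, neg_neg]
      have h4 : - c1 v = c v := hcu _ h3 v hv
      linarith
    · intro h
      refine ⟨fun w => - c w, ?_, ?_⟩
      · simp only [neg_smul, Finset.sum_neg_distrib, hc]
      · have := hne v hv
        have h5 : c v < 0 := lt_of_le_of_ne (not_lt.1 h) this
        simpa using h5
  rw [h1, h2, Finset.card_filter_add_card_filter_not, hcard]

end Pool.Agent.H.MP_4bcbbd_co
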