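import Mathlib

/-!
MP_4bcbbd_co: centrally symmetric simplicial polytopes. Definitions used in the final statement.
-/

set_option autoImplicit false

namespace Pool.Agent.H.MP_4bcbbd_co

/-- Euclidean space `ℝ^d`. -/
abbrev E (d : ℕ) := EuclideanSpace ℝ (Fin d)

/-- `P` is a `d`-polytope in `ℝ^d`: the convex hull of a finite set, with nonempty interior. -/
def IsPolytope {d : ℕ} (P : Set (E d)) : Prop :=
  (∃ S : Set (E d), S.Finite ∧ P = convexHull ℝ S) ∧ (interior P).Nonempty

/-- `P` is centrally symmetric. -/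
def IsCentSymm {d : ℕ} (P : Set (E d)) : Prop := ∀ x ∈ P, -x ∈ P

/-- `F` is a proper face of `P`: a nonempty subset, different from `P`, on which some linear
functional attains its maximum over `P`. -/
def IsProperFace {d : ℕ} (P F : Set (E d)) : Prop :=
  F.Nonempty ∧ F ≠ P ∧ IsExposed ℝ P F

/-- The number `f_i(P)` of `i`-dimensional proper faces of `P`. -/
noncomputable def faceNum {d : ℕ} (i : ℕ) (P : Set (E d)) : ℕ :=
  {F : Set (E d) | IsProperFace P F ∧ Module.finrank ℝ (vectorSpan ℝ F) = i}.ncard

/-- `P` is simplicial: every proper face is a simplex. -/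
def IsSimplicial {d : ℕ} (P : Set (E d)) : Prop :=
  ∀ F : Set (E d), IsProperFace P F →
    ∃ s : Set (E d), AffineIndependent ℝ ((↑) : s → E d) ∧ F = convexHull ℝ s

/-- The maximum `M_i(d,n)` of `f_i(P)` over all centrally symmetric simplicial `d`-polytopes `P`
with `2n` vertices. -/
noncomputable def maxFaces (i d n : ℕ) : ℕ :=
  sSup {m : ℕ | ∃ P : Set (E d), IsPolytope P ∧ IsCentSymm P ∧ IsSimplicial P ∧
    (P.extremePoints ℝ).ncard = 2 * n ∧ m = faceNum i P}

end Pool.Agent.H.MP_4bcbbd_co
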