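import Mathlib

/-!
MP_4bcbbd_co: edge version of the Erdős–Stone theorem for three classes.
-/

set_option autoImplicit false

namespace Pool.Agent.H.MP_4bcbbd_co

open SimpleGraph

theorem es_extremal (t : ℕ) (ε : ℝ) (hε : 0 < ε) : ∃ C : ℝ, 0 ≤ C ∧ ∀ n : ℕ,
    (extremalNumber n (completeEquipartiteGraph 3 t) : ℝ) ≤ (1 / 4 + ε) * (n : ℝ) ^ 2 + C := by
  obtain ⟨N1, hN1⟩ := Filter.eventually_atTop.1
    (eventually_completeEquipartiteGraph_isContained_of_minDegree hε 2 t)
  obtain ⟨N2, hN2⟩ := exists_nat_gt (1 / (4 * ε))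
  have hpos : 0 < 1 / (4 * ε) := by positivity
  set N0 : ℕ := N1 + N2 + 1 with hN0
  refine ⟨(N0 : ℝ) ^ 2, by positivity, ?_⟩
  intro n
  induction n with
  | zero =>
    have h1 : extremalNumber 0 (completeEquipartiteGraph 3 t) ≤ 0 := by
      rw [← Fintype.card_fin 0, extremalNumber_le_iff]
      intro G _ _
      have := G.card_edgeFinset_le_card_choose_two
      simpa using this
    have h2 : extremalNumber 0 (completeEquipartiteGraph 3 t) = 0 := by omega
    rw [h2]
    push_cast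
    positivity
  | succ m ih =>
    have hnn : 0 ≤ (1 / 4 + ε) * ((m + 1 : ℕ) : ℝ) ^ 2 + (N0 : ℝ) ^ 2 := by positivity
    have key := (extremalNumber_le_iff_of_nonneg (V := Fin (m + 1)) (R := ℝ)
      (completeEquipartiteGraph 3 t) hnn)
    rw [Fintype.card_fin] at key
    rw [key]
    intro G _ hG
    by_cases hm : m + 1 ≤ N0
    · have h1 := G.card_edgeFinset_le_card_choose_two
      rw [Fintype.card_fin] at h1
      have h2 : (m + 1).choose 2 ≤ N0 ^ 2 := by
        calc (m + 1).choose 2 ≤ (m + 1) ^ 2 := Nat.choose_le_pow _ _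
          _ ≤ N0 ^ 2 := Nat.pow_le_pow_left hm 2
      have h3 : (G.edgeFinset.card : ℝ) ≤ (N0 : ℝ) ^ 2 := by exact_mod_cast h1.trans h2
      have h4 : 0 ≤ (1 / 4 + ε) * ((m + 1 : ℕ) : ℝ) ^ 2 := by positivity
      linarith
    · push Not at hm
      have hmin : ¬ ((G.minDegree : ℝ) ≥ (1 - 1 / ((2 : ℕ) : ℝ) + ε) * ((m + 1 : ℕ) : ℝ)) := by
        intro h
        exact hG (hN1 (m + 1) (by omega) h)
      obtain ⟨v, hv⟩ := G.exists_minimal_degree_vertex
      have h1 := card_edgeFinset_deleteIncidenceSet_le_extremalNumber hG v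
      rw [Fintype.card_fin, Nat.add_sub_cancel, card_edgeFinset_deleteIncidenceSet] at h1
      have h2 : G.edgeFinset.card ≤
          extremalNumber m (completeEquipartiteGraph 3 t) + G.degree v := by omega
      have h3 : (G.edgeFinset.card : ℝ) ≤
          extremalNumber m (completeEquipartiteGraph 3 t) + G.degree v := by exact_mod_cast h2
      rw [← hv] at h3
      have h4 : (G.minDegree : ℝ) ≤ (1 / 2 + ε) * ((m : ℝ) + 1) := by
        push Not at hmin
        have h5 := hmin.le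
        push_cast at h5
        have h6 : (1 - 1 / 2 + ε) * ((m : ℝ) + 1) = (1 / 2 + ε) * ((m : ℝ) + 1) := by ring
        linarith
      have h7 : 1 / (4 * ε) ≤ (m : ℝ) := by
        have : (N2 : ℝ) ≤ m := by exact_mod_cast (by omega : N2 ≤ m)
        linarith
      have h8 : 1 / 4 ≤ ε * m := by
        rw [div_le_iff₀ (by positivity)] at h7
        linarith
      push_cast
      have h9 : (1 / 4 + ε) * ((m : ℝ) + 1) ^ 2 =
          (1 / 4 + ε) * (m : ℝ) ^ 2 + (1 / 4 + ε) * (2 * m + 1) := by ring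
      rw [h9]
      have h10 : (1 / 4 + ε) * (2 * (m : ℝ) + 1) = (1 / 2 + ε) * ((m : ℝ) + 1) +
          (ε * m - 1 / 4) := by ring
      rw [h10]
      linarith

theorem es_edges (t : ℕ) (ε : ℝ) (hε : 0 < ε) : ∃ C : ℝ, ∀ n : ℕ, ∀ (G : SimpleGraph (Fin n))
    [DecidableRel G.Adj], ¬ (completeEquipartiteGraph 3 t).IsContained G →
      (G.edgeFinset.card : ℝ) ≤ (1 / 4 + ε) * (n : ℝ) ^ 2 + C := by
  obtain ⟨C, -, hC⟩ := es_extremal t ε hε
  refine ⟨C, ?_⟩
  intro n G _ hG
  have h1 := card_edgeFinset_le_extremalNumber (G := G) (H := completeEquipartiteGraph 3 t) hG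
  rw [Fintype.card_fin] at h1
  have h2 : (G.edgeFinset.card : ℝ) ≤ extremalNumber n (completeEquipartiteGraph 3 t) := by
    exact_mod_cast h1
  exact h2.trans (hC n)

end Pool.Agent.H.MP_4bcbbd_co
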