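import Pool.Agent.H.MP_4bcbbd_co.PolyC

/-!
MP_4bcbbd_co: the face numbers in terms of the combinatorial data.
-/

set_option autoImplicit false

namespace Pool.Agent.H.MP_4bcbbd_co

variable {d : ℕ}

private lemma faceNum_li_of_ai {W : Finset (E d)} {l : E d →L[ℝ] ℝ} (hl : ∀ w ∈ W, l w = 1)
    (h : AffineIndependent ℝ ((↑) : W → E d)) : LinearIndependent ℝ ((↑) : W → E d) := by
  rw [linearIndependent_iff']
  rw [affineIndependent_iff] at h
  intro s g hg
  refine h s g ?_ hg
  have h1 := congrArg l hg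
  rw [map_sum, map_zero] at h1
  rw [← h1]
  refine Finset.sum_congr rfl fun i _ => ?_
  rw [map_smul, hl i.1 i.2, smul_eq_mul, mul_one]

private lemma faceNum_ai_of_li {W : Finset (E d)}
    (h : LinearIndependent ℝ ((↑) : W → E d)) : AffineIndependent ℝ ((↑) : W → E d) := by
  rw [linearIndependent_iff'] at h
  rw [affineIndependent_iff]
  exact fun s g _ hg => h s g hg

private lemma faceNum_extreme {V W : Finset (E d)} (hV : CSData V) (hW : W ⊆ V) :
    (W : Set (E d)) ⊆ (convexHull ℝ (W : Set (E d))).extremePoints ℝ := by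
  intro w hw
  have h1 : w ∈ (convexHull ℝ (V : Set (E d))).extremePoints ℝ := by
    rw [extremePoints_of_data hV]
    exact hW hw
  have h2 : convexHull ℝ (W : Set (E d)) ⊆ convexHull ℝ (V : Set (E d)) :=
    convexHull_mono (by exact_mod_cast hW)
  exact inter_extremePoints_subset_extremePoints_of_subset h2 ⟨subset_convexHull ℝ _ hw, h1⟩

theorem simp_iff (hd : 0 < d) {V : Finset (E d)} (hV : CSData V) :
    IsSimplicial (convexHull ℝ (V : Set (E d))) ↔ Simp V := by
  constructor
  · intro h W hW hspt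
    rcases W.eq_empty_or_nonempty with rfl | hne
    · exact linearIndependent_empty_type
    obtain ⟨s, hs, hF⟩ := h _ ((isProperFace_iff hd hV _).2 ⟨W, hW, hne, hspt, rfl⟩)
    have h1 : (W : Set (E d)) ⊆ s := by
      intro w hw
      have h2 := faceNum_extreme hV hW hw
      rw [hF] at h2
      exact extremePoints_convexHull_subset h2
    obtain ⟨l, hl, -⟩ := hspt
    exact faceNum_li_of_ai hl (hs.mono h1)
  · intro h F hF
    obtain ⟨W, hW, -, hspt, rfl⟩ := (isProperFace_iff hd hV F).1 hF
    exact ⟨(W : Set (E d)), faceNum_ai_of_li (h W hW hspt), rfl⟩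

private lemma faceNum_finrank {W : Finset (E d)} (h : AffineIndependent ℝ ((↑) : W → E d))
    (hne : W.Nonempty) :
    Module.finrank ℝ (vectorSpan ℝ (convexHull ℝ (W : Set (E d)))) + 1 = W.card := by
  have h1 : vectorSpan ℝ (convexHull ℝ (W : Set (E d))) = vectorSpan ℝ (W : Set (E d)) := by
    rw [← direction_affineSpan, affineSpan_convexHull, direction_affineSpan]
  have hc : Fintype.card W = (W.card - 1) + 1 := by
    rw [Fintype.card_coe]
    have := hne.card_pos
    omega
  have h2 := h.finrank_vectorSpan hc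
  rw [Subtype.range_coe_subtype] at h2
  rw [h1]
  have h3 : {x | x ∈ W} = (W : Set (E d)) := rfl
  rw [h3] at h2
  rw [h2]
  have := hne.card_pos
  omega

theorem faceNum_eq (hd : 0 < d) {V : Finset (E d)} (hV : CSData V) (hS : Simp V) (i : ℕ) :
    faceNum i (convexHull ℝ (V : Set (E d))) = (fc V (i + 1)).card := by
  have hset : {F : Set (E d) | IsProperFace (convexHull ℝ (V : Set (E d))) F ∧
      Module.finrank ℝ (vectorSpan ℝ F) = i} =
      (fun W : Finset (E d) => convexHull ℝ (W : Set (E d))) '' (fc V (i + 1) : Set _) := by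
    ext F
    simp only [Set.mem_setOf_eq, Set.mem_image, Finset.mem_coe]
    constructor
    · rintro ⟨hF, hi⟩
      obtain ⟨W, hW, hne, hspt, rfl⟩ := (isProperFace_iff hd hV F).1 hF
      have h1 := faceNum_finrank (faceNum_ai_of_li (hS W hW hspt)) hne
      exact ⟨W, mem_fc.2 ⟨hW, by omega, hspt⟩, rfl⟩
    · rintro ⟨W, hW, rfl⟩
      obtain ⟨hW, hc, hspt⟩ := mem_fc.1 hW
      have hne : W.Nonempty := Finset.card_pos.1 (by omega)
      have h1 := faceNum_finrank (faceNum_ai_of_li (hS W hW hspt)) hne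
      exact ⟨(isProperFace_iff hd hV _).2 ⟨W, hW, hne, hspt, rfl⟩, by omega⟩
  unfold faceNum
  rw [hset, Set.ncard_image_of_injOn, Set.ncard_coe_finset]
  intro W hW W' hW' heq
  simp only [Finset.mem_coe] at hW hW'
  obtain ⟨hW1, -, hW2⟩ := mem_fc.1 hW
  obtain ⟨hW1', -, hW2'⟩ := mem_fc.1 hW'
  simp only at heq
  ext v
  constructor
  · intro hv
    refine mem_of_mem_hull hW1' hW2' (hW1 hv) ?_
    rw [← heq]
    exact subset_convexHull ℝ _ (by exact_mod_cast hv)
  · intro hv
    refine mem_of_mem_hull hW1 hW2 (hW1' hv) ?_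
    rw [heq]
    exact subset_convexHull ℝ _ (by exact_mod_cast hv)

end Pool.Agent.H.MP_4bcbbd_co
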