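import Pool.Agent.H.MP_4bcbbd_co.Curve2

/-!
MP_4bcbbd_co: points of the curve in general position.
-/

set_option autoImplicit false

namespace Pool.Agent.H.MP_4bcbbd_co

open Real

/-- angles in general position: different points up to sign, and no five of them lie, up to
signs, on a hyperplane `l = 1`. -/
structure Good {n : ℕ} (θ : Fin n → ℝ) : Prop where
  ne : ∀ i j, i ≠ j → U (θ i) ≠ U (θ j) ∧ U (θ i) ≠ -U (θ j)
  gen : ∀ (f : Fin 5 → Fin n), Function.Injective f → ∀ s : Fin 5 → ℝ,
    (∀ k, s k = 1 ∨ s k = -1) → ¬ ∃ l : E 4 →L[ℝ] ℝ, ∀ k, l (U (θ (f k))) = s k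

/-- two functionals which agree on four independent points of the curve are equal -/
private theorem Gen_unique {n : ℕ} {θ : Fin n → ℝ} (hθ : Good θ) (g : Fin 4 → Fin n)
    (hg : Function.Injective g) (l l' : E 4 →L[ℝ] ℝ) (h : ∀ k, l (U (θ (g k))) = l' (U (θ (g k)))) :
    l = l' := by
  have hli : LinearIndependent ℝ (fun k => U (θ (g k))) :=
    U_indep (fun k => θ (g k)) fun i j hij => hθ.ne _ _ fun hc => hij (hg hc)
  have hcard : Fintype.card (Fin 4) = Module.finrank ℝ (E 4) := by
    simp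
  let b := basisOfLinearIndependentOfCardEqFinrank hli hcard
  have h1 : (l : E 4 →ₗ[ℝ] ℝ) = (l' : E 4 →ₗ[ℝ] ℝ) := by
    refine b.ext fun k => ?_
    have h2 : b k = U (θ (g k)) := by
      simp [b]
    rw [h2]
    exact h k
  exact ContinuousLinearMap.coe_injective h1

private theorem Gen_finite {n : ℕ} {θ : Fin n → ℝ} (hθ : Good θ) (a b : ℝ) (g : Fin 4 → Fin n)
    (hg : Function.Injective g) (s : Fin 4 → ℝ) :
    {t | t ∈ Set.Icc a b ∧ ∃ l : E 4 →L[ℝ] ℝ, (∀ k, l (U (θ (g k))) = s k) ∧
      (l (U t) = 1 ∨ l (U t) = -1)}.Finite := by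
  by_cases hex : ∃ l : E 4 →L[ℝ] ℝ, ∀ k, l (U (θ (g k))) = s k
  · obtain ⟨l, hl⟩ := hex
    refine ((U_finite l 1 one_ne_zero a b).union
      (U_finite l (-1) (neg_ne_zero.2 one_ne_zero) a b)).subset ?_
    rintro t ⟨ht, l', hl', h1⟩
    have h2 : l' = l := Gen_unique hθ g hg l' l fun k => by rw [hl' k, hl k]
    subst h2
    rcases h1 with h1 | h1
    · exact Or.inl ⟨ht, h1⟩
    · exact Or.inr ⟨ht, h1⟩
  · refine Set.Finite.subset Set.finite_empty ?_
    rintro t ⟨ht, l', hl', h1⟩
    exact hex ⟨l', hl'⟩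

private theorem Gen_finite2 (a b φ : ℝ) :
    {t | t ∈ Set.Icc a b ∧ (U t = U φ ∨ U t = -U φ)}.Finite := by
  obtain ⟨l, hl, -, -⟩ := U_support φ φ (by rw [sub_self, abs_zero]; positivity)
  refine ((U_finite l 1 one_ne_zero a b).union
    (U_finite l (-1) (neg_ne_zero.2 one_ne_zero) a b)).subset ?_
  rintro t ⟨ht, h1 | h1⟩
  · exact Or.inl ⟨ht, by rw [h1, hl]⟩
  · exact Or.inr ⟨ht, by rw [h1, map_neg, hl]⟩

/-- angles in general position in prescribed intervals. -/
theorem exists_good (n : ℕ) (a b : Fin n → ℝ) (hab : ∀ i, a i < b i) :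
    ∃ θ : Fin n → ℝ, (∀ i, a i < θ i ∧ θ i < b i) ∧ Good θ := by
  induction n with
  | zero =>
    refine ⟨fun i => i.elim0, fun i => i.elim0, ⟨fun i => i.elim0, fun f => (f 0).elim0⟩⟩
  | succ n ih =>
    obtain ⟨θ, hθ1, hθ⟩ := ih (fun i => a i.castSucc) (fun i => b i.castSucc) fun i => hab _
    set A := a (Fin.last n) with hA
    set B := b (Fin.last n) with hB
    -- the avoided set
    let bad1 : Set ℝ := ⋃ i : Fin n, {t | t ∈ Set.Icc A B ∧ (U t = U (θ i) ∨ U t = -U (θ i))}
    let bad2 : Set ℝ := ⋃ g : {g : Fin 4 → Fin n // Function.Injective g}, ⋃ e : Fin 4 → Bool,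
      {t | t ∈ Set.Icc A B ∧ ∃ l : E 4 →L[ℝ] ℝ,
        (∀ k, l (U (θ (g.1 k))) = if e k then (1 : ℝ) else -1) ∧ (l (U t) = 1 ∨ l (U t) = -1)}
    have hb1 : bad1.Finite := Set.finite_iUnion fun i => Gen_finite2 A B (θ i)
    have hb2 : bad2.Finite := by
      refine Set.finite_iUnion fun g => Set.finite_iUnion fun e => ?_
      exact Gen_finite hθ A B g.1 g.2 fun k => if e k then (1 : ℝ) else -1
    have hinf : (Set.Ioo A B).Infinite := Set.Ioo_infinite (hab _)
    obtain ⟨t, ht, htbad⟩ := (hinf.sdiff (hb1.union hb2)).nonempty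
    have htI : t ∈ Set.Icc A B := Set.Ioo_subset_Icc_self ht
    have ht1 : ∀ i : Fin n, U t ≠ U (θ i) ∧ U t ≠ -U (θ i) := by
      intro i
      constructor
      · intro hc
        exact htbad (Or.inl (Set.mem_iUnion.2 ⟨i, htI, Or.inl hc⟩))
      · intro hc
        exact htbad (Or.inl (Set.mem_iUnion.2 ⟨i, htI, Or.inr hc⟩))
    have ht2 : ∀ g : Fin 4 → Fin n, Function.Injective g → ∀ s : Fin 4 → ℝ,
        (∀ k, s k = 1 ∨ s k = -1) → ∀ l : E 4 →L[ℝ] ℝ, (∀ k, l (U (θ (g k))) = s k) →
        ¬ (l (U t) = 1 ∨ l (U t) = -1) := by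
      classical
      intro g hg s hs l hl hc
      apply htbad
      refine Or.inr (Set.mem_iUnion.2 ⟨⟨g, hg⟩, Set.mem_iUnion.2
        ⟨fun k => decide (s k = 1), htI, l, fun k => ?_, hc⟩⟩)
      rw [hl k]
      rcases hs k with h1 | h1
      · simp [h1]
      · have h2 : ¬ ((-1 : ℝ) = 1) := by norm_num
        simp [h1, h2]
    refine ⟨Fin.snoc θ t, ?_, ?_, ?_⟩
    · intro i
      refine Fin.lastCases ?_ (fun j => ?_) i
      · rw [Fin.snoc_last]
        exact ht
      · rw [Fin.snoc_castSucc]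
        exact hθ1 j
    · intro i j
      refine Fin.lastCases ?_ (fun i' => ?_) i
      · refine Fin.lastCases ?_ (fun j' => ?_) j
        · intro h
          exact absurd rfl h
        · intro _
          rw [Fin.snoc_last, Fin.snoc_castSucc]
          exact ht1 j'
      · refine Fin.lastCases ?_ (fun j' => ?_) j
        · intro _
          rw [Fin.snoc_last, Fin.snoc_castSucc]
          exact ⟨(ht1 i').1.symm, fun hc => (ht1 i').2 (by rw [hc, neg_neg])⟩
        · intro h
          rw [Fin.snoc_castSucc, Fin.snoc_castSucc]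
          exact hθ.ne i' j' fun hc => h (by rw [hc])
    · intro f hf s hs
      rintro ⟨l, hl⟩
      by_cases hlast : ∃ k₀, f k₀ = Fin.last n
      · obtain ⟨k₀, hk₀⟩ := hlast
        have hne : ∀ k : Fin 4, f (k₀.succAbove k) ≠ Fin.last n := by
          intro k hc
          exact Fin.succAbove_ne k₀ k (hf (hc.trans hk₀.symm))
        have hex : ∀ k : Fin 4, ∃ i : Fin n, f (k₀.succAbove k) = i.castSucc := by
          intro k
          obtain ⟨i, hi⟩ := Fin.exists_castSucc_eq.2 (hne k)
          exact ⟨i, hi.symm⟩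
        choose g hg using hex
        have hginj : Function.Injective g := by
          intro k k' hkk
          have h1 : f (k₀.succAbove k) = f (k₀.succAbove k') := by rw [hg, hg, hkk]
          exact Fin.succAbove_right_injective (hf h1)
        refine ht2 g hginj (fun k => s (k₀.succAbove k)) (fun k => hs _) l (fun k => ?_) ?_
        · have h1 := hl (k₀.succAbove k)
          rw [hg k, Fin.snoc_castSucc] at h1
          exact h1
        · have h1 := hl k₀
          rw [hk₀, Fin.snoc_last] at h1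
          rw [h1]
          exact hs k₀
      · push Not at hlast
        have hex : ∀ k : Fin 5, ∃ i : Fin n, f k = i.castSucc := by
          intro k
          obtain ⟨i, hi⟩ := Fin.exists_castSucc_eq.2 (hlast k)
          exact ⟨i, hi.symm⟩
        choose g hg using hex
        have hginj : Function.Injective g := by
          intro k k' hkk
          exact hf (by rw [hg, hg, hkk])
        refine hθ.gen g hginj s hs ⟨l, fun k => ?_⟩
        have h1 := hl k
        rw [hg k, Fin.snoc_castSucc] at h1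
        exact h1

end Pool.Agent.H.MP_4bcbbd_co
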