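import Pool.Agent.H.MP_4bcbbd_co.Base

/-!
MP_4bcbbd_co: the key lemma (six vectors in `ℝ^4`).
-/

set_option autoImplicit false

namespace Pool.Agent.H.MP_4bcbbd_co

open scoped BigOperators

private lemma key_D_eq (x y z w : E 4) : D x y z w =
    x 0 * (y 1 * (z 2 * w 3 - z 3 * w 2) - y 2 * (z 1 * w 3 - z 3 * w 1)
      + y 3 * (z 1 * w 2 - z 2 * w 1))
    - x 1 * (y 0 * (z 2 * w 3 - z 3 * w 2) - y 2 * (z 0 * w 3 - z 3 * w 0)
      + y 3 * (z 0 * w 2 - z 2 * w 0))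
    + x 2 * (y 0 * (z 1 * w 3 - z 3 * w 1) - y 1 * (z 0 * w 3 - z 3 * w 0)
      + y 3 * (z 0 * w 1 - z 1 * w 0))
    - x 3 * (y 0 * (z 1 * w 2 - z 2 * w 1) - y 1 * (z 0 * w 2 - z 2 * w 0)
      + y 2 * (z 0 * w 1 - z 1 * w 0)) := by
  unfold D
  simp [Matrix.det_succ_row_zero, Fin.sum_univ_succ, Fin.succAbove]
  ring

/-- `D` as a linear functional of its third argument. -/
private lemma key_D_third (x y w : E 4) : ∃ L : E 4 →ₗ[ℝ] ℝ, (∀ z, L z = D x y z w) ∧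
    L x = 0 ∧ L y = 0 ∧ L w = 0 := by
  refine ⟨{ toFun := fun z => D x y z w, map_add' := ?_, map_smul' := ?_ }, fun z => rfl,
    ?_, ?_, ?_⟩
  · intro a b
    rw [key_D_eq, key_D_eq, key_D_eq]
    simp only [PiLp.add_apply]
    ring
  · intro a b
    rw [key_D_eq, key_D_eq]
    simp only [PiLp.smul_apply, smul_eq_mul, RingHom.id_apply]
    ring
  · change D x y x w = 0
    rw [key_D_eq]; ring
  · change D x y y w = 0
    rw [key_D_eq]; ring
  · change D x y w w = 0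
    rw [key_D_eq]; ring

/-- `D` as a linear functional of its fourth argument. -/
private lemma key_D_fourth (x y z : E 4) : ∃ L : E 4 →ₗ[ℝ] ℝ, (∀ w, L w = D x y z w) ∧
    L x = 0 ∧ L y = 0 ∧ L z = 0 := by
  refine ⟨{ toFun := fun w => D x y z w, map_add' := ?_, map_smul' := ?_ }, fun z => rfl,
    ?_, ?_, ?_⟩
  · intro a b
    rw [key_D_eq, key_D_eq, key_D_eq]
    simp only [PiLp.add_apply]
    ring
  · intro a b
    rw [key_D_eq, key_D_eq]
    simp only [PiLp.smul_apply, smul_eq_mul, RingHom.id_apply]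
    ring
  · change D x y z x = 0
    rw [key_D_eq]; ring
  · change D x y z y = 0
    rw [key_D_eq]; ring
  · change D x y z z = 0
    rw [key_D_eq]; ring

/-- the sum over `Fin 6` written out. -/
private lemma key_sum {M : Type*} [AddCommMonoid M] (f : Fin 6 → M) :
    ∑ k, f k = f 0 + f 1 + f 2 + f 3 + f 4 + f 5 := Fin.sum_univ_six f

/-- the strict inequality for linear relations. -/
private lemma key_rel (x : Fin 6 → E 4)
    (hx : ∀ i j : Fin 6, (i : ℕ) / 2 ≠ (j : ℕ) / 2 → ∀ s : ℝ, (s = 1 ∨ s = -1) →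
      ∃ l : E 4 →L[ℝ] ℝ, l (x i) = 1 ∧ l (x j) = s ∧ ∀ k, k ≠ i → k ≠ j → |l (x k)| < 1)
    (y : Fin 6 → ℝ) (h0 : ∑ k, y k • x k = 0) (hy : y ≠ 0) (i j : Fin 6)
    (hij : (i : ℕ) / 2 ≠ (j : ℕ) / 2) : 2 * (|y i| + |y j|) < ∑ k, |y k| := by
  classical
  have hne : i ≠ j := by
    rintro rfl
    exact hij rfl
  obtain ⟨s, hs, hs2⟩ : ∃ s : ℝ, (s = 1 ∨ s = -1) ∧ |y i + s * y j| = |y i| + |y j| := by
    rcases le_total 0 (y i) with h1 | h1 <;> rcases le_total 0 (y j) with h2 | h2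
    · exact ⟨1, Or.inl rfl, by
        rw [abs_of_nonneg h1, abs_of_nonneg h2, abs_of_nonneg (by linarith)]; ring⟩
    · exact ⟨-1, Or.inr rfl, by
        rw [abs_of_nonneg h1, abs_of_nonpos h2, abs_of_nonneg (by linarith)]; ring⟩
    · exact ⟨-1, Or.inr rfl, by
        rw [abs_of_nonpos h1, abs_of_nonneg h2, abs_of_nonpos (by linarith)]; ring⟩
    · exact ⟨1, Or.inl rfl, by
        rw [abs_of_nonpos h1, abs_of_nonpos h2, abs_of_nonpos (by linarith)]; ring⟩
  obtain ⟨l, hl1, hl2, hl3⟩ := hx i j hij s hs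
  have hl0 : ∑ k, y k * l (x k) = 0 := by
    have := congrArg l h0
    rw [map_sum, map_zero] at this
    simpa using this
  have hsplit : ∀ f : Fin 6 → ℝ, ∑ k, f k = f i + f j + ∑ k ∈ (Finset.univ.erase i).erase j, f k := by
    intro f
    rw [← Finset.add_sum_erase _ f (Finset.mem_univ i),
      ← Finset.add_sum_erase (Finset.univ.erase i) f (Finset.mem_erase.2 ⟨hne.symm,
        Finset.mem_univ j⟩)]
    ring
  rw [hsplit] at hl0
  rw [hsplit (fun k => |y k|)]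
  rw [hl1, hl2] at hl0
  set T := (Finset.univ.erase i).erase j with hT
  have hTm : ∀ k ∈ T, k ≠ i ∧ k ≠ j := by
    intro k hk
    rw [hT, Finset.mem_erase, Finset.mem_erase] at hk
    exact ⟨hk.2.1, hk.1⟩
  have h1 : |y i| + |y j| ≤ ∑ k ∈ T, |y k| * |l (x k)| := by
    rw [← hs2]
    have : y i + s * y j = -∑ k ∈ T, y k * l (x k) := by linarith
    rw [this, abs_neg]
    refine (Finset.abs_sum_le_sum_abs _ _).trans (le_of_eq ?_)
    exact Finset.sum_congr rfl fun k _ => abs_mul _ _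
  have h2 : ∑ k ∈ T, |y k| * |l (x k)| ≤ ∑ k ∈ T, |y k| := by
    refine Finset.sum_le_sum fun k hk => ?_
    have := hl3 k (hTm k hk).1 (hTm k hk).2
    nlinarith [abs_nonneg (y k)]
  by_cases hz : ∀ k ∈ T, y k = 0
  · exfalso
    have h3 : ∑ k ∈ T, |y k| * |l (x k)| = 0 :=
      Finset.sum_eq_zero fun k hk => by rw [hz k hk]; simp
    have h4 : |y i| = 0 := le_antisymm (by
      have := abs_nonneg (y j); linarith) (abs_nonneg _)
    have h5 : |y j| = 0 := le_antisymm (by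
      have := abs_nonneg (y i); linarith) (abs_nonneg _)
    apply hy
    funext k
    by_cases hki : k = i
    · rw [hki]; exact abs_eq_zero.1 h4
    · by_cases hkj : k = j
      · rw [hkj]; exact abs_eq_zero.1 h5
      · exact hz k (by rw [hT]; simp [hki, hkj])
  · push Not at hz
    obtain ⟨k, hk, hk0⟩ := hz
    have h3 : ∑ k ∈ T, |y k| * |l (x k)| < ∑ k ∈ T, |y k| := by
      refine Finset.sum_lt_sum (fun k hk => ?_) ⟨k, hk, ?_⟩
      · have := hl3 k (hTm k hk).1 (hTm k hk).2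
        nlinarith [abs_nonneg (y k)]
      · have := hl3 k (hTm k hk).1 (hTm k hk).2
        have h6 : 0 < |y k| := abs_pos.2 hk0
        nlinarith
    linarith

/-- no nonzero relation on two disjoint pairs of points from different classes. -/
private lemma key_four (x : Fin 6 → E 4)
    (hx : ∀ i j : Fin 6, (i : ℕ) / 2 ≠ (j : ℕ) / 2 → ∀ s : ℝ, (s = 1 ∨ s = -1) →
      ∃ l : E 4 →L[ℝ] ℝ, l (x i) = 1 ∧ l (x j) = s ∧ ∀ k, k ≠ i → k ≠ j → |l (x k)| < 1)
    (y : Fin 6 → ℝ) (h0 : ∑ k, y k • x k = 0) (p q r s : Fin 6)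
    (hpr : (p : ℕ) / 2 ≠ (r : ℕ) / 2) (hqs : (q : ℕ) / 2 ≠ (s : ℕ) / 2)
    (hsum : ∑ k, |y k| = |y p| + |y q| + |y r| + |y s|) : y = 0 := by
  by_contra hy
  have h1 := key_rel x hx y h0 hy p r hpr
  have h2 := key_rel x hx y h0 hy q s hqs
  linarith

/-- nonvanishing determinants. -/
private lemma key_D_ne (x : Fin 6 → E 4)
    (hx : ∀ i j : Fin 6, (i : ℕ) / 2 ≠ (j : ℕ) / 2 → ∀ s : ℝ, (s = 1 ∨ s = -1) →
      ∃ l : E 4 →L[ℝ] ℝ, l (x i) = 1 ∧ l (x j) = s ∧ ∀ k, k ≠ i → k ≠ j → |l (x k)| < 1)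
    (f : Fin 4 → Fin 6) (hf : Function.Injective f)
    (h02 : (f 0 : ℕ) / 2 ≠ (f 2 : ℕ) / 2) (h13 : (f 1 : ℕ) / 2 ≠ (f 3 : ℕ) / 2) :
    D (x (f 0)) (x (f 1)) (x (f 2)) (x (f 3)) ≠ 0 := by
  classical
  intro hD
  unfold D at hD
  obtain ⟨v, hv0, hv⟩ := Matrix.exists_vecMul_eq_zero_iff.2 hD
  -- the relation on `Fin 6`
  let y : Fin 6 → ℝ := fun k => ∑ i, if f i = k then v i else 0
  have hyf : ∀ i, y (f i) = v i := by
    intro i
    simp only [y]
    rw [Finset.sum_eq_single i]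
    · simp
    · intro j _ hj
      rw [if_neg (fun h => hj (hf h))]
    · simp
  have hsum1 : ∀ g : Fin 6 → ℝ → ℝ, (∀ k, g k 0 = 0) →
      ∑ k, g k (y k) = ∑ i, g (f i) (v i) := by
    intro g hg
    have h1 : ∀ k ∉ Finset.univ.image f, y k = 0 := by
      intro k hk
      simp only [y]
      refine Finset.sum_eq_zero fun i _ => ?_
      rw [if_neg]
      intro h
      exact hk (Finset.mem_image.2 ⟨i, Finset.mem_univ _, h⟩)
    rw [← Finset.sum_subset (Finset.subset_univ (Finset.univ.image f))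
      (fun k _ hk => by rw [h1 k hk, hg]), Finset.sum_image (fun a _ b _ h => hf h)]
    exact Finset.sum_congr rfl fun i _ => by rw [hyf]
  have hy0 : ∑ k, y k • x k = 0 := by
    ext t
    have h2 := congrFun hv t
    rw [Matrix.vecMul_eq_sum] at h2
    have h3 : (∑ k, y k • x k) t = ∑ k, y k * x k t := by
      rw [WithLp.ofLp_sum, Finset.sum_apply]
      rfl
    rw [h3, hsum1 (fun k r => r * x k t) (fun k => zero_mul _)]
    simp [Fin.sum_univ_four] at h2 ⊢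
    linarith
  have hyabs : ∑ k, |y k| = |y (f 0)| + |y (f 1)| + |y (f 2)| + |y (f 3)| := by
    rw [hsum1 (fun _ r => |r|) (fun _ => abs_zero), Fin.sum_univ_four, hyf, hyf, hyf, hyf]
  have hy := key_four x hx y hy0 (f 0) (f 1) (f 2) (f 3) h02 h13 hyabs
  apply hv0
  funext i
  rw [← hyf i, hy]
  rfl

/-- a nonzero relation vanishing at a given place. -/
private lemma key_circ (x : Fin 6 → E 4) (m : Fin 6) :
    ∃ y : Fin 6 → ℝ, y m = 0 ∧ ∑ k, y k • x k = 0 ∧ y ≠ 0 := by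
  have h : ¬ LinearIndependent ℝ (fun i : Fin 5 => x (m.succAbove i)) := by
    intro hli
    have := hli.fintype_card_le_finrank
    simp at this
  rw [Fintype.not_linearIndependent_iff] at h
  obtain ⟨g, hg, i, hi⟩ := h
  refine ⟨m.insertNth 0 g, by simp, ?_, ?_⟩
  · rw [Fin.sum_univ_succAbove _ m]
    simpa using hg
  · intro h
    apply hi
    have := congrFun h (m.succAbove i)
    simpa using this

/-- opposite signs. -/
private lemma key_sign {a b u v : ℝ} (h : a * u + b * v = 0) (hu : u ≠ 0) (hv : v ≠ 0)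
    (hs : 0 < u ↔ 0 < v) (hb : b ≠ 0) : a * b < 0 := by
  have huv : 0 < u * v := by
    rcases lt_or_gt_of_ne hu with h1 | h1
    · have h2 : ¬ 0 < v := fun h3 => absurd (hs.2 h3) (not_lt.2 h1.le)
      exact mul_pos_of_neg_of_neg h1 (lt_of_le_of_ne (not_lt.1 h2) hv)
    · exact mul_pos h1 (hs.1 h1)
  have h1 : a * b * (u * v) = -(b * v) ^ 2 := by
    have : a * u = -(b * v) := by linarith
    calc a * b * (u * v) = (a * u) * (b * v) := by ring
      _ = _ := by rw [this]; ring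
  have h2 : 0 < (b * v) ^ 2 := by positivity
  by_contra h3
  have h4 : 0 ≤ a * b * (u * v) := mul_nonneg (not_lt.1 h3) huv.le
  linarith

/-- the final contradiction with real numbers. -/
private lemma key_real {y0 y1 y2 y3 y4 u0 u2 u3 u4 u5 v0 v1 v2 v4 v5 : ℝ}
    (e1 : y1 + v1 = 0) (e3 : y3 + u3 = 0) (e5 : u5 + v5 = 0) (e0 : y0 + u0 + v0 = 0)
    (e2 : y2 + u2 + v2 = 0) (e4 : y4 + u4 + v4 = 0)
    (s1 : y0 * y1 < 0) (s2 : y2 * y3 < 0) (s3 : u2 * u3 < 0) (s4 : u4 * u5 < 0)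
    (s5 : v0 * v1 < 0) (s6 : v4 * v5 < 0)
    (a1 : 2 * (|y0| + |y2|) < |y0| + |y1| + |y2| + |y3| + |y4|)
    (a2 : 2 * (|y0| + |y3|) < |y0| + |y1| + |y2| + |y3| + |y4|)
    (a3 : 2 * (|y1| + |y2|) < |y0| + |y1| + |y2| + |y3| + |y4|)
    (a4 : 2 * (|y1| + |y3|) < |y0| + |y1| + |y2| + |y3| + |y4|)
    (b1 : 2 * (|u2| + |u4|) < |u0| + |u2| + |u3| + |u4| + |u5|)
    (b2 : 2 * (|u2| + |u5|) < |u0| + |u2| + |u3| + |u4| + |u5|)
    (b3 : 2 * (|u3| + |u4|) < |u0| + |u2| + |u3| + |u4| + |u5|)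
    (b4 : 2 * (|u3| + |u5|) < |u0| + |u2| + |u3| + |u4| + |u5|)
    (c1 : 2 * (|v0| + |v4|) < |v0| + |v1| + |v2| + |v4| + |v5|)
    (c2 : 2 * (|v0| + |v5|) < |v0| + |v1| + |v2| + |v4| + |v5|)
    (c3 : 2 * (|v1| + |v4|) < |v0| + |v1| + |v2| + |v4| + |v5|)
    (c4 : 2 * (|v1| + |v5|) < |v0| + |v1| + |v2| + |v4| + |v5|) : False := by
  -- differences
  have habs : ∀ {p q : ℝ}, p * q < 0 → |p + q| = |(|p| - |q|)| := by
    intro p q h
    rcases lt_or_ge 0 p with hp | hp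
    · have hq : q < 0 := by
        by_contra hq
        exact absurd (mul_nonneg hp.le (not_lt.1 hq)) (not_le.2 h)
      rw [abs_of_pos hp, abs_of_neg hq, sub_neg_eq_add]
    · have hp' : p < 0 := lt_of_le_of_ne hp (by rintro rfl; simp at h)
      have hq : 0 < q := by
        by_contra hq
        exact absurd (mul_nonneg_of_nonpos_of_nonpos hp (not_lt.1 hq)) (not_le.2 h)
      rw [abs_of_neg hp', abs_of_pos hq, ← abs_neg (p + q)]
      congr 1
      ring
  have A : |(|y0| - |y1|)| + |(|y2| - |y3|)| < |y4| := by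
    rcases abs_cases (|y0| - |y1|) with ⟨h, _⟩ | ⟨h, _⟩ <;>
    rcases abs_cases (|y2| - |y3|) with ⟨h', _⟩ | ⟨h', _⟩ <;> rw [h, h'] <;> linarith
  have B : |(|u2| - |u3|)| + |(|u4| - |u5|)| < |u0| := by
    rcases abs_cases (|u2| - |u3|) with ⟨h, _⟩ | ⟨h, _⟩ <;>
    rcases abs_cases (|u4| - |u5|) with ⟨h', _⟩ | ⟨h', _⟩ <;> rw [h, h'] <;> linarith
  have C : |(|v0| - |v1|)| + |(|v4| - |v5|)| < |v2| := by
    rcases abs_cases (|v0| - |v1|) with ⟨h, _⟩ | ⟨h, _⟩ <;>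
    rcases abs_cases (|v4| - |v5|) with ⟨h', _⟩ | ⟨h', _⟩ <;> rw [h, h'] <;> linarith
  rw [← habs s1, ← habs s2] at A
  rw [← habs s3, ← habs s4] at B
  rw [← habs s5, ← habs s6] at C
  have h0 : |u0| ≤ |y0 + y1| + |v0 + v1| := by
    have : u0 = -((y0 + y1) + (v0 + v1)) := by linarith
    rw [this, abs_neg]
    exact abs_add_le _ _
  have h2 : |v2| ≤ |y2 + y3| + |u2 + u3| := by
    have : v2 = -((y2 + y3) + (u2 + u3)) := by linarith
    rw [this, abs_neg]
    exact abs_add_le _ _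
  have h4 : |y4| ≤ |u4 + u5| + |v4 + v5| := by
    have : y4 = -((u4 + u5) + (v4 + v5)) := by linarith
    rw [this, abs_neg]
    exact abs_add_le _ _
  linarith

theorem key (x : Fin 6 → E 4)
    (hx : ∀ i j : Fin 6, (i : ℕ) / 2 ≠ (j : ℕ) / 2 → ∀ s : ℝ, (s = 1 ∨ s = -1) →
      ∃ l : E 4 →L[ℝ] ℝ, l (x i) = 1 ∧ l (x j) = s ∧ ∀ k, k ≠ i → k ≠ j → |l (x k)| < 1)
    (hA1 : (0 < D (x 0) (x 1) (x 2) (x 4)) ↔ (0 < D (x 0) (x 1) (x 3) (x 4)))
    (hA2 : (0 < D (x 0) (x 1) (x 2) (x 4)) ↔ (0 < D (x 0) (x 1) (x 2) (x 5)))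
    (hB1 : (0 < D (x 2) (x 3) (x 0) (x 4)) ↔ (0 < D (x 2) (x 3) (x 1) (x 4)))
    (hB2 : (0 < D (x 2) (x 3) (x 0) (x 4)) ↔ (0 < D (x 2) (x 3) (x 0) (x 5)))
    (hC1 : (0 < D (x 4) (x 5) (x 0) (x 2)) ↔ (0 < D (x 4) (x 5) (x 1) (x 2)))
    (hC2 : (0 < D (x 4) (x 5) (x 0) (x 2)) ↔ (0 < D (x 4) (x 5) (x 0) (x 3))) : False := by
  have hne := fun (f : Fin 4 → Fin 6) => key_D_ne x hx f
  -- the nonvanishing determinants
  have n1 : D (x 0) (x 1) (x 2) (x 4) ≠ 0 := hne ![0, 1, 2, 4] (by decide) (by decide) (by decide)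
  have n2 : D (x 0) (x 1) (x 3) (x 4) ≠ 0 := hne ![0, 1, 3, 4] (by decide) (by decide) (by decide)
  have n3 : D (x 0) (x 1) (x 2) (x 5) ≠ 0 := hne ![0, 1, 2, 5] (by decide) (by decide) (by decide)
  have n4 : D (x 2) (x 3) (x 0) (x 4) ≠ 0 := hne ![2, 3, 0, 4] (by decide) (by decide) (by decide)
  have n5 : D (x 2) (x 3) (x 1) (x 4) ≠ 0 := hne ![2, 3, 1, 4] (by decide) (by decide) (by decide)
  have n6 : D (x 2) (x 3) (x 0) (x 5) ≠ 0 := hne ![2, 3, 0, 5] (by decide) (by decide) (by decide)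
  have n7 : D (x 4) (x 5) (x 0) (x 2) ≠ 0 := hne ![4, 5, 0, 2] (by decide) (by decide) (by decide)
  have n8 : D (x 4) (x 5) (x 1) (x 2) ≠ 0 := hne ![4, 5, 1, 2] (by decide) (by decide) (by decide)
  have n9 : D (x 4) (x 5) (x 0) (x 3) ≠ 0 := hne ![4, 5, 0, 3] (by decide) (by decide) (by decide)
  -- the three relations
  obtain ⟨y, y5, hy, hy0⟩ := key_circ x 5
  obtain ⟨u, u1, hu, hu0⟩ := key_circ x 1
  obtain ⟨v, v3, hv, hv0⟩ := key_circ x 3
  have y1 : y 1 ≠ 0 := fun h => hy0 (key_four x hx y hy 0 3 2 4 (by decide) (by decide) (by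
    rw [key_sum, h, y5, abs_zero]; ring))
  have y3 : y 3 ≠ 0 := fun h => hy0 (key_four x hx y hy 0 1 2 4 (by decide) (by decide) (by
    rw [key_sum, h, y5, abs_zero]; ring))
  have u3 : u 3 ≠ 0 := fun h => hu0 (key_four x hx u hu 0 2 4 5 (by decide) (by decide) (by
    rw [key_sum, h, u1, abs_zero]; ring))
  have u5 : u 5 ≠ 0 := fun h => hu0 (key_four x hx u hu 0 3 2 4 (by decide) (by decide) (by
    rw [key_sum, h, u1, abs_zero]; ring))
  have v1 : v 1 ≠ 0 := fun h => hv0 (key_four x hx v hv 0 2 4 5 (by decide) (by decide) (by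
    rw [key_sum, h, v3, abs_zero]; ring))
  have v5 : v 5 ≠ 0 := fun h => hv0 (key_four x hx v hv 0 1 2 4 (by decide) (by decide) (by
    rw [key_sum, h, v3, abs_zero]; ring))
  -- signs
  have happ : ∀ (w : Fin 6 → ℝ), ∑ k, w k • x k = 0 → ∀ L : E 4 →ₗ[ℝ] ℝ,
      w 0 * L (x 0) + w 1 * L (x 1) + w 2 * L (x 2) + w 3 * L (x 3) + w 4 * L (x 4)
        + w 5 * L (x 5) = 0 := by
    intro w hw L
    have := congrArg L hw
    rw [map_sum, map_zero, key_sum] at this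
    simpa using this
  have s1 : y 0 * y 1 < 0 := by
    obtain ⟨L, hL, l1, l2, l3⟩ := key_D_third (x 2) (x 3) (x 4)
    have := happ y hy L
    rw [l1, l2, l3, y5, hL (x 0), hL (x 1)] at this
    exact key_sign (by linarith) n4 n5 hB1 y1
  have s2 : y 2 * y 3 < 0 := by
    obtain ⟨L, hL, l1, l2, l3⟩ := key_D_third (x 0) (x 1) (x 4)
    have := happ y hy L
    rw [l1, l2, l3, y5, hL (x 2), hL (x 3)] at this
    exact key_sign (by linarith) n1 n2 hA1 y3
  have s3 : u 2 * u 3 < 0 := by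
    obtain ⟨L, hL, l1, l2, l3⟩ := key_D_fourth (x 4) (x 5) (x 0)
    have := happ u hu L
    rw [l1, l2, l3, u1, hL (x 2), hL (x 3)] at this
    exact key_sign (by linarith) n7 n9 hC2 u3
  have s4 : u 4 * u 5 < 0 := by
    obtain ⟨L, hL, l1, l2, l3⟩ := key_D_fourth (x 2) (x 3) (x 0)
    have := happ u hu L
    rw [l1, l2, l3, u1, hL (x 4), hL (x 5)] at this
    exact key_sign (by linarith) n4 n6 hB2 u5
  have s5 : v 0 * v 1 < 0 := by
    obtain ⟨L, hL, l1, l2, l3⟩ := key_D_third (x 4) (x 5) (x 2)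
    have := happ v hv L
    rw [l1, l2, l3, v3, hL (x 0), hL (x 1)] at this
    exact key_sign (by linarith) n7 n8 hC1 v1
  have s6 : v 4 * v 5 < 0 := by
    obtain ⟨L, hL, l1, l2, l3⟩ := key_D_fourth (x 0) (x 1) (x 2)
    have := happ v hv L
    rw [l1, l2, l3, v3, hL (x 4), hL (x 5)] at this
    exact key_sign (by linarith) n1 n3 hA2 v5
  -- scaling
  let a : ℝ := -(y 3 / u 3)
  let b : ℝ := -(y 1 / v 1)
  have ha : a ≠ 0 := by
    simp only [a]
    exact neg_ne_zero.2 (div_ne_zero y3 u3)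
  have hb : b ≠ 0 := by
    simp only [b]
    exact neg_ne_zero.2 (div_ne_zero y1 v1)
  have hau : a * u 3 = -y 3 := by
    simp only [a]
    field_simp
  have hbv : b * v 1 = -y 1 := by
    simp only [b]
    field_simp
  have hsmul : ∀ (w : Fin 6 → ℝ) (t : ℝ), ∑ k, w k • x k = 0 → ∑ k, (t • w) k • x k = 0 := by
    intro w t hw
    have : ∑ k, (t • w) k • x k = t • ∑ k, w k • x k := by
      rw [Finset.smul_sum]
      exact Finset.sum_congr rfl fun k _ => by rw [Pi.smul_apply, smul_smul, smul_eq_mul]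
    rw [this, hw, smul_zero]
  have hU : ∑ k, (a • u) k • x k = 0 := hsmul u a hu
  have hV : ∑ k, (b • v) k • x k = 0 := hsmul v b hv
  have hU0 : a • u ≠ 0 := smul_ne_zero ha hu0
  have hV0 : b • v ≠ 0 := smul_ne_zero hb hv0
  have hS : ∑ k, (y + a • u + b • v) k • x k = 0 := by
    have : ∑ k, (y + a • u + b • v) k • x k
        = ∑ k, y k • x k + ∑ k, (a • u) k • x k + ∑ k, (b • v) k • x k := by
      rw [← Finset.sum_add_distrib, ← Finset.sum_add_distrib]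
      exact Finset.sum_congr rfl fun k _ => by rw [← add_smul, ← add_smul]; rfl
    rw [this, hy, hU, hV]
    simp
  have hS1 : (y + a • u + b • v) 1 = 0 := by
    simp only [Pi.add_apply, Pi.smul_apply, smul_eq_mul, u1, hbv]
    ring
  have hS3 : (y + a • u + b • v) 3 = 0 := by
    simp only [Pi.add_apply, Pi.smul_apply, smul_eq_mul, v3, hau]
    ring
  have hS0 : y + a • u + b • v = 0 :=
    key_four x hx _ hS 0 2 4 5 (by decide) (by decide) (by
      rw [key_sum, hS1, hS3, abs_zero]; ring)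
  have hk : ∀ k, y k + a * u k + b * v k = 0 := by
    intro k
    have := congrFun hS0 k
    simpa using this
  have ty : ∑ k, |y k| = |y 0| + |y 1| + |y 2| + |y 3| + |y 4| := by
    rw [key_sum, y5, abs_zero]; ring
  have tu : ∑ k, |(a • u) k| = |a * u 0| + |a * u 2| + |a * u 3| + |a * u 4| + |a * u 5| := by
    rw [key_sum]
    simp only [Pi.smul_apply, smul_eq_mul, u1, mul_zero, abs_zero]
    ring
  have tv : ∑ k, |(b • v) k| = |b * v 0| + |b * v 1| + |b * v 2| + |b * v 4| + |b * v 5| := by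
    rw [key_sum]
    simp only [Pi.smul_apply, smul_eq_mul, v3, mul_zero, abs_zero]
    ring
  have hEy : ∀ i j : Fin 6, (i : ℕ) / 2 ≠ (j : ℕ) / 2 →
      2 * (|y i| + |y j|) < |y 0| + |y 1| + |y 2| + |y 3| + |y 4| := by
    intro i j hij
    have := key_rel x hx y hy hy0 i j hij
    rwa [ty] at this
  have hEu : ∀ i j : Fin 6, (i : ℕ) / 2 ≠ (j : ℕ) / 2 →
      2 * (|a * u i| + |a * u j|) < |a * u 0| + |a * u 2| + |a * u 3| + |a * u 4| + |a * u 5| := by
    intro i j hij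
    have := key_rel x hx (a • u) hU hU0 i j hij
    rwa [tu] at this
  have hEv : ∀ i j : Fin 6, (i : ℕ) / 2 ≠ (j : ℕ) / 2 →
      2 * (|b * v i| + |b * v j|) < |b * v 0| + |b * v 1| + |b * v 2| + |b * v 4| + |b * v 5| := by
    intro i j hij
    have := key_rel x hx (b • v) hV hV0 i j hij
    rwa [tv] at this
  have sq : ∀ {t p q : ℝ}, t ≠ 0 → p * q < 0 → (t * p) * (t * q) < 0 := by
    intro t p q ht h
    have : (t * p) * (t * q) = t ^ 2 * (p * q) := by ring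
    rw [this]
    exact mul_neg_of_pos_of_neg (by positivity) h
  refine key_real (y0 := y 0) (y1 := y 1) (y2 := y 2) (y3 := y 3) (y4 := y 4)
    (u0 := a * u 0) (u2 := a * u 2) (u3 := a * u 3) (u4 := a * u 4) (u5 := a * u 5)
    (v0 := b * v 0) (v1 := b * v 1) (v2 := b * v 2) (v4 := b * v 4) (v5 := b * v 5)
    (by rw [hbv]; ring) (by rw [hau]; ring) ?_ (hk 0) (hk 2) (hk 4) s1 s2 (sq ha s3)
    (sq ha s4) (sq hb s5) (sq hb s6)
    (hEy 0 2 (by decide)) (hEy 0 3 (by decide)) (hEy 1 2 (by decide)) (hEy 1 3 (by decide))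
    (hEu 2 4 (by decide)) (hEu 2 5 (by decide)) (hEu 3 4 (by decide)) (hEu 3 5 (by decide))
    (hEv 0 4 (by decide)) (hEv 0 5 (by decide)) (hEv 1 4 (by decide)) (hEv 1 5 (by decide))
  have := hk 5
  rw [y5] at this
  linarith

end Pool.Agent.H.MP_4bcbbd_co
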