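import Pool.Agent.H.MP_4bcbbd_co.LP

/-!
MP_4bcbbd_co: linear programming over the facets, existence.
-/

set_option autoImplicit false

namespace Pool.Agent.H.MP_4bcbbd_co

open scoped BigOperators
open Filter Topology

/-- the polyhedron of the functionals supporting `V` along `e`. -/
def lpexK {d : ℕ} (V e : Finset (E d)) : Set (E d →L[ℝ] ℝ) :=
  {l | (∀ v ∈ V, l v ≤ 1) ∧ ∀ v ∈ e, l v = 1}

theorem lpexK_compact {d : ℕ} {V e : Finset (E d)} (hV : CSData V) (he : e ⊆ V) :
    IsCompact (lpexK V e) := by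
  classical
  let Φ : (E d →L[ℝ] ℝ) →ₗ[ℝ] (V → ℝ) :=
    { toFun := fun l v => l v
      map_add' := fun l m => by ext v; simp
      map_smul' := fun c l => by ext v; simp }
  have hinj : LinearMap.ker Φ = ⊥ := by
    rw [LinearMap.ker_eq_bot']
    intro l hl
    have h1 : ∀ v ∈ V, l v = 0 := fun v hv => congrFun hl ⟨v, hv⟩
    have h2 : Submodule.span ℝ (V : Set (E d)) ≤ LinearMap.ker (l : E d →ₗ[ℝ] ℝ) := by
      rw [Submodule.span_le]
      intro v hv
      exact h1 v hv
    rw [hV.span] at h2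
    ext x
    exact h2 (Submodule.mem_top (x := x))
  have hemb := LinearMap.isClosedEmbedding_of_injective hinj
  have hC : IsCompact (Set.pi Set.univ
      (fun v : V => if (v : E d) ∈ e then ({1} : Set ℝ) else Set.Icc (-1) 1)) := by
    apply isCompact_univ_pi
    intro v
    split_ifs
    · exact isCompact_singleton
    · exact isCompact_Icc
  have h3 : lpexK V e = Φ ⁻¹' (Set.pi Set.univ
      (fun v : V => if (v : E d) ∈ e then ({1} : Set ℝ) else Set.Icc (-1) 1)) := by
    ext l
    constructor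
    · rintro ⟨h4, h5⟩ v _
      by_cases hve : (v : E d) ∈ e
      · simp only [hve, if_true]
        exact h5 v hve
      · simp only [hve, if_false]
        exact ⟨hV.neg_one_le h4 v.2, h4 v v.2⟩
    · intro h
      have h6 : ∀ v ∈ e, l v = 1 := by
        intro v hv
        have := h ⟨v, he hv⟩ (Set.mem_univ _)
        simp only [hv, if_true] at this
        exact this
      refine ⟨?_, h6⟩
      intro v hv
      by_cases hve : v ∈ e
      · exact (h6 v hve).le
      · have := h ⟨v, hv⟩ (Set.mem_univ _)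
        simp only [hve, if_false] at this
        exact this.2
  rw [h3]
  exact hemb.isCompact_preimage hC

theorem lpex_perturb {d : ℕ} {V e : Finset (E d)} (he : e ⊆ V) {l m : E d →L[ℝ] ℝ}
    (hl : l ∈ lpexK V e) (hm : ∀ v ∈ V, l v = 1 → m v ≤ 0) (hme : ∀ v ∈ e, m v = 0) :
    ∃ ε : ℝ, 0 < ε ∧ l + ε • m ∈ lpexK V e := by
  have h1 : ∀ v ∈ V, ∀ᶠ ε : ℝ in 𝓝[>] 0, l v + ε * m v ≤ 1 := by
    intro v hv
    by_cases h2 : l v = 1
    · filter_upwards [self_mem_nhdsWithin] with ε hε
      have h3 : ε * m v ≤ 0 := mul_nonpos_of_nonneg_of_nonpos (le_of_lt hε) (hm v hv h2)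
      linarith
    · have h3 : l v < 1 := lt_of_le_of_ne (hl.1 v hv) h2
      have h4 : Tendsto (fun ε : ℝ => l v + ε * m v) (𝓝 0) (𝓝 (l v + 0 * m v)) := by
        apply Continuous.tendsto
        fun_prop
      rw [zero_mul, add_zero] at h4
      exact ((h4.mono_left nhdsWithin_le_nhds).eventually (gt_mem_nhds h3)).mono
        (fun ε h => h.le)
  have h5 : ∀ᶠ ε : ℝ in 𝓝[>] 0, ∀ v ∈ V, l v + ε * m v ≤ 1 :=
    (Finset.eventually_all V).2 h1
  obtain ⟨ε, h6, h7⟩ := (h5.and self_mem_nhdsWithin).exists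
  refine ⟨ε, h7, ?_, ?_⟩
  · intro v hv
    simpa using h6 v hv
  · intro v hv
    simp [hl.2 v hv, hme v hv]

/-- at least one facet through `e` sees `z` with positive coordinates. -/
theorem lp_exists {d : ℕ} {V : Finset (E d)} (hV : CSData V) (hS : Simp V) {z : E d}
    (hz : Generic V z) {e : Finset (E d)} (he : e ⊆ V) (hes : Spt V e) :
    ∃ F ⊆ V, F.card = d ∧ Spt V F ∧ e ⊆ F ∧ ∃ c : E d → ℝ, ∑ v ∈ F, c v • v = z ∧
      ∀ v ∈ F, v ∉ e → 0 < c v := by
  classical
  have hne : (lpexK V e).Nonempty := by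
    obtain ⟨l, h1, h2⟩ := hes
    refine ⟨l, ?_, h1⟩
    intro v hv
    by_cases hve : v ∈ e
    · exact (h1 v hve).le
    · exact (h2 v hv hve).le
  have hcont : Continuous (fun l : E d →L[ℝ] ℝ => l z) := by fun_prop
  obtain ⟨l, hlK, hmax⟩ := (lpexK_compact hV he).exists_isMaxOn hne hcont.continuousOn
  have hmax' : ∀ m ∈ lpexK V e, m z ≤ l z := fun m hm => hmax hm
  set F : Finset (E d) := V.filter (fun v => l v = 1) with hF
  have hFV : F ⊆ V := Finset.filter_subset _ _
  have hF1 : ∀ v ∈ F, l v = 1 := fun v hv => (Finset.mem_filter.1 hv).2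
  have hF2 : ∀ v ∈ V, v ∉ F → l v < 1 := by
    intro v hv hvF
    refine lt_of_le_of_ne (hlK.1 v hv) ?_
    intro h
    exact hvF (Finset.mem_filter.2 ⟨hv, h⟩)
  have hspt : Spt V F := ⟨l, hF1, hF2⟩
  have heF : e ⊆ F := fun v hv => Finset.mem_filter.2 ⟨he hv, hlK.2 v hv⟩
  have hli := hS F hFV hspt
  have hfr : Module.finrank ℝ (E d) = d := by simp
  have hcard1 : F.card ≤ d := by
    have := hli.fintype_card_le_finrank
    rwa [Fintype.card_coe, hfr] at this
  -- the improvement argument
  have himp : ∀ m : E d →L[ℝ] ℝ, (∀ v ∈ F, m v ≤ 0) → (∀ v ∈ e, m v = 0) → m z ≤ 0 := by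
    intro m hm hme
    by_contra hcon
    push Not at hcon
    obtain ⟨ε, hε, h1⟩ := lpex_perturb he hlK
      (fun v hv hlv => hm v (Finset.mem_filter.2 ⟨hv, hlv⟩)) hme
    have h2 := hmax' _ h1
    have h3 : (l + ε • m) z = l z + ε * m z := by simp
    rw [h3] at h2
    have : 0 < ε * m z := mul_pos hε hcon
    linarith
  have hcard : F.card = d := by
    by_contra hne2
    have hlt : F.card < d := lt_of_le_of_ne hcard1 hne2
    have hzs := hz F hFV hlt
    obtain ⟨f, hfz, hf⟩ := Submodule.exists_le_ker_of_notMem hzs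
    have hfF : ∀ v ∈ F, f v = 0 := fun v hv => hf (Submodule.subset_span hv)
    let m : E d →L[ℝ] ℝ := LinearMap.toContinuousLinearMap ((f z) • f)
    have hmv : ∀ v, m v = f z * f v := fun v => rfl
    have h1 := himp m (fun v hv => by rw [hmv, hfF v hv, mul_zero])
      (fun v hv => by rw [hmv, hfF v (heF hv), mul_zero])
    rw [hmv] at h1
    have h2 : 0 < f z * f z := mul_self_pos.2 hfz
    linarith
  have hspan : Submodule.span ℝ (F : Set (E d)) = ⊤ := by
    have := hli.span_eq_top_of_card_eq_finrank' (by rw [Fintype.card_coe, hfr, hcard])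
    rwa [Subtype.range_coe_subtype, Finset.setOfPred_mem] at this
  have hzF : z ∈ Submodule.span ℝ (F : Set (E d)) := by
    rw [hspan]
    exact Submodule.mem_top
  obtain ⟨c, -, hc⟩ := Submodule.mem_span_finset.1 hzF
  refine ⟨F, hFV, hcard, hspt, heF, c, hc, ?_⟩
  intro v0 hv0 hv0e
  -- a functional vanishing on `F` minus `v0`
  have hnot : v0 ∉ Submodule.span ℝ ((F.erase v0 : Finset (E d)) : Set (E d)) := by
    have h1 := (linearIndependent_iff_notMem_span.1 hli) ⟨v0, hv0⟩
    have h2 : (fun x : F => (x : E d)) '' (Set.univ \ {⟨v0, hv0⟩}) =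
        ((F.erase v0 : Finset (E d)) : Set (E d)) := by
      ext x
      simp only [Set.mem_image, Set.mem_sdiff, Set.mem_univ, true_and, Set.mem_singleton_iff,
        Subtype.exists, Finset.coe_erase, Finset.mem_coe]
      constructor
      · rintro ⟨a, ha, hne3, rfl⟩
        exact ⟨ha, fun h => hne3 (Subtype.ext h)⟩
      · rintro ⟨hx, hx2⟩
        exact ⟨x, hx, fun h => hx2 (congrArg Subtype.val h), rfl⟩
    rw [h2] at h1
    exact h1
  obtain ⟨f, hfv, hf⟩ := Submodule.exists_le_ker_of_notMem hnot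
  have hfF : ∀ v ∈ F, v ≠ v0 → f v = 0 := fun v hv hne4 =>
    hf (Submodule.subset_span (Finset.mem_coe.2 (Finset.mem_erase.2 ⟨hne4, hv⟩)))
  have hfz : f z = c v0 * f v0 := by
    rw [← hc, map_sum, Finset.sum_eq_single v0]
    · rw [map_smul, smul_eq_mul]
    · intro v hv hne5
      rw [map_smul, hfF v hv hne5, smul_zero]
    · intro h
      exact absurd hv0 h
  by_contra hcon
  push Not at hcon
  rcases hcon.lt_or_eq with hneg | hzero
  · let m : E d →L[ℝ] ℝ := LinearMap.toContinuousLinearMap ((-(f v0)) • f)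
    have hmv : ∀ v, m v = -(f v0) * f v := fun v => rfl
    have h1 := himp m (fun v hv => by
      rw [hmv]
      by_cases h : v = v0
      · rw [h]
        nlinarith [mul_self_nonneg (f v0)]
      · rw [hfF v hv h, mul_zero]) (fun v hv => by
      rw [hmv, hfF v (heF hv) (fun h => hv0e (h ▸ hv)), mul_zero])
    rw [hmv, hfz] at h1
    have h2 : 0 < f v0 * f v0 := mul_self_pos.2 hfv
    nlinarith
  · apply hz (F.erase v0) ((Finset.erase_subset _ _).trans hFV)
      (by rw [Finset.card_erase_of_mem hv0, hcard]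
          have : 0 < F.card := Finset.card_pos.2 ⟨v0, hv0⟩
          omega)
    rw [← hc, ← Finset.add_sum_erase _ _ hv0, hzero, zero_smul, zero_add]
    apply Submodule.sum_mem
    intro v hv
    exact Submodule.smul_mem _ _ (Submodule.subset_span hv)

end Pool.Agent.H.MP_4bcbbd_co
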