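import Pool.Agent.H.MP_4bcbbd_co.PtsEdges

/-!
MP_4bcbbd_co: the lower bound for the number of edges.
-/

set_option autoImplicit false

namespace Pool.Agent.H.MP_4bcbbd_co

open Real

private theorem lower_arith (p q : ℕ) (h : p = q ∨ p = q + 1) (hn : 4 ≤ p + q) :
    (p + q) * (p + q - 1) + 2 * ((p + q) ^ 2 / 4) = p * (p - 1) + q * (q - 1) + 4 * p * q := by
  rcases h with h | h
  · subst h
    obtain ⟨r, rfl⟩ : ∃ r, p = r + 1 := ⟨p - 1, by omega⟩
    have h1 : (r + 1 + (r + 1)) ^ 2 / 4 = (r + 1) ^ 2 := by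
      have : (r + 1 + (r + 1)) ^ 2 = 4 * (r + 1) ^ 2 := by ring
      rw [this, Nat.mul_div_cancel_left _ (by norm_num)]
    have h2 : r + 1 + (r + 1) - 1 = 2 * r + 1 := by omega
    have h3 : r + 1 - 1 = r := by omega
    rw [h1, h2, h3]
    ring
  · subst h
    obtain ⟨r, rfl⟩ : ∃ r, q = r + 1 := ⟨q - 1, by omega⟩
    have h1 : (r + 1 + 1 + (r + 1)) ^ 2 / 4 = (r + 1) ^ 2 + (r + 1) := by
      have : (r + 1 + 1 + (r + 1)) ^ 2 = 4 * ((r + 1) ^ 2 + (r + 1)) + 1 := by ring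
      rw [this]
      omega
    have h2 : r + 1 + 1 + (r + 1) - 1 = 2 * r + 2 := by omega
    have h3 : r + 1 - 1 = r := by omega
    have h4 : r + 1 + 1 - 1 = r + 1 := by omega
    rw [h1, h2, h3, h4]
    ring

theorem lower (n : ℕ) (hn : 4 ≤ n) : ∃ V : Finset (E 4), CSData V ∧ Simp V ∧ V.card = 2 * n ∧
    n * (n - 1) + 2 * (n ^ 2 / 4) ≤ (fc V 2).card := by
  obtain ⟨p, q, hpq, hcase⟩ : ∃ p q : ℕ, n = p + q ∧ (p = q ∨ p = q + 1) :=
    ⟨n - n / 2, n / 2, by omega, by omega⟩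
  subst hpq
  obtain ⟨θ, hθ, hg⟩ := exists_good (p + q)
    (fun i => if (i : ℕ) < p then -(1 / 10) else π / 2 - 1 / 10)
    (fun i => if (i : ℕ) < p then 1 / 10 else π / 2 + 1 / 10)
    (fun i => by
      by_cases h : (i : ℕ) < p
      · simp only [if_pos h]; norm_num
      · simp only [if_neg h]; linarith)
  refine ⟨pts θ, pts_data hn θ hg, pts_simp hn θ hg, pts_card θ hg, ?_⟩
  rw [lower_arith p q hcase hn]
  refine pts_edges p q θ hg (fun i hi => ?_) (fun i hi => ?_)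
  · have := hθ i
    simpa only [if_pos hi] using this
  · have := hθ i
    simpa only [if_neg (not_lt.2 hi)] using this

end Pool.Agent.H.MP_4bcbbd_co
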