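import Pool.Agent.H.MP_4bcbbd_co.FaceNum
import Pool.Agent.H.MP_4bcbbd_co.PolyB
import Pool.Agent.H.MP_4bcbbd_co.Upper
import Pool.Agent.H.MP_4bcbbd_co.Lower
import Pool.Agent.H.MP_4bcbbd_co.DS

/-!
MP_4bcbbd_co: the asymptotics of the maximal face numbers in dimension four.
-/

set_option autoImplicit false

namespace Pool.Agent.H.MP_4bcbbd_co

open Filter Topology

/-- the set of the values of the face number in terms of the combinatorial data -/
private def mainSet (i n : ℕ) : Set ℕ :=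
  {m | ∃ V : Finset (E 4), CSData V ∧ Simp V ∧ V.card = 2 * n ∧ m = (fc V (i + 1)).card}

private theorem main_maxFaces (i n : ℕ) : maxFaces i 4 n = sSup (mainSet i n) := by
  unfold maxFaces
  congr 1
  ext m
  constructor
  · rintro ⟨P, hP, hs, hS, hc, hm⟩
    obtain ⟨V, hV, rfl⟩ := exists_data (by norm_num) hP hs
    have hS' : Simp V := (simp_iff (by norm_num) hV).1 hS
    refine ⟨V, hV, hS', ?_, ?_⟩
    · rw [extremePoints_of_data hV, Set.ncard_coe_finset] at hc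
      exact hc
    · rw [hm, faceNum_eq (by norm_num) hV hS']
  · rintro ⟨V, hV, hS, hc, hm⟩
    obtain ⟨h1, h2⟩ := isPolytope_of_data (by norm_num) hV
    refine ⟨convexHull ℝ (V : Set (E 4)), h1, h2, (simp_iff (by norm_num) hV).2 hS, ?_, ?_⟩
    · rw [extremePoints_of_data hV, Set.ncard_coe_finset]
      exact hc
    · rw [hm, faceNum_eq (by norm_num) hV hS]

private theorem main_bdd (i n : ℕ) : BddAbove (mainSet i n) := by
  refine ⟨(2 * n).choose (i + 1), ?_⟩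
  rintro m ⟨V, -, -, hc, rfl⟩
  rw [← hc, ← Finset.card_powersetCard]
  apply Finset.card_le_card
  intro W hW
  rw [mem_fc] at hW
  exact Finset.mem_powersetCard.2 ⟨hW.1, hW.2.1⟩

private theorem main_le {i n : ℕ} {V : Finset (E 4)} (hV : CSData V) (hS : Simp V)
    (hc : V.card = 2 * n) : (fc V (i + 1)).card ≤ maxFaces i 4 n := by
  rw [main_maxFaces]
  exact le_csSup (main_bdd i n) ⟨V, hV, hS, hc, rfl⟩

private theorem main_attained (i : ℕ) {n : ℕ} (hn : 4 ≤ n) :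
    ∃ V : Finset (E 4), CSData V ∧ Simp V ∧ V.card = 2 * n ∧
      maxFaces i 4 n = (fc V (i + 1)).card := by
  rw [main_maxFaces]
  have hne : (mainSet i n).Nonempty := by
    obtain ⟨V, hV, hS, hc, -⟩ := lower n hn
    exact ⟨_, V, hV, hS, hc, rfl⟩
  exact Nat.sSup_mem hne (main_bdd i n)

theorem maxFaces_one_ge (n : ℕ) (hn : 4 ≤ n) :
    n * (n - 1) + 2 * (n ^ 2 / 4) ≤ maxFaces 1 4 n := by
  obtain ⟨V, hV, hS, hc, h⟩ := lower n hn
  exact h.trans (main_le hV hS hc)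

theorem maxFaces_one_le (ε : ℝ) (hε : 0 < ε) : ∃ C : ℝ, ∀ n : ℕ, 4 ≤ n →
    (maxFaces 1 4 n : ℝ) ≤ (3 / 2 + ε) * (n : ℝ) ^ 2 + C := by
  obtain ⟨C, hC⟩ := upper ε hε
  refine ⟨C, fun n hn => ?_⟩
  obtain ⟨V, hV, hS, hc, h⟩ := main_attained 1 hn
  rw [h]
  exact hC n V hV hc

theorem maxFaces_three (n : ℕ) (hn : 4 ≤ n) : maxFaces 3 4 n + 2 * n = maxFaces 1 4 n := by
  apply le_antisymm
  · obtain ⟨V, hV, hS, hc, h⟩ := main_attained 3 hn
    have h1 := main_le (i := 1) hV hS hc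
    have h2 := (dehn_sommerville hV hS).1
    rw [h]
    rw [hc] at h2
    exact h2.le.trans h1
  · obtain ⟨V, hV, hS, hc, h⟩ := main_attained 1 hn
    have h1 := main_le (i := 3) hV hS hc
    have h2 := (dehn_sommerville hV hS).1
    rw [h]
    rw [hc] at h2
    exact h2.ge.trans (Nat.add_le_add_right h1 _)

theorem maxFaces_two (n : ℕ) (hn : 4 ≤ n) : maxFaces 2 4 n = 2 * maxFaces 3 4 n := by
  apply le_antisymm
  · obtain ⟨V, hV, hS, hc, h⟩ := main_attained 2 hn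
    have h1 := main_le (i := 3) hV hS hc
    have h2 := (dehn_sommerville hV hS).2
    rw [h]
    exact h2.le.trans (Nat.mul_le_mul_left 2 h1)
  · obtain ⟨V, hV, hS, hc, h⟩ := main_attained 3 hn
    have h1 := main_le (i := 2) hV hS hc
    have h2 := (dehn_sommerville hV hS).2
    rw [h]
    exact h2.ge.trans h1

private theorem main_one :
    Tendsto (fun n : ℕ => (maxFaces 1 4 n : ℝ) / (n : ℝ) ^ 2) atTop (𝓝 (3 / 2)) := by
  rw [tendsto_order]
  have hsq : Tendsto (fun n : ℕ => (n : ℝ)) atTop atTop := tendsto_natCast_atTop_atTop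
  constructor
  · intro a ha
    have h1 : Tendsto (fun n : ℕ => (3 / 2 - a) * (n : ℝ)) atTop atTop :=
      hsq.const_mul_atTop (by linarith)
    filter_upwards [h1.eventually_gt_atTop 3, eventually_ge_atTop 4] with n hn hn4
    have hn0 : (4 : ℝ) ≤ n := by exact_mod_cast hn4
    have h2 := maxFaces_one_ge n hn4
    have h3 : (n : ℝ) * ((n : ℝ) - 1) + 2 * (((n : ℝ) ^ 2 - 3) / 4) ≤ (maxFaces 1 4 n : ℝ) := by
      have h4 : n ^ 2 ≤ 4 * (n ^ 2 / 4) + 3 := by omega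
      have h5 : ((n : ℝ) ^ 2 - 3) / 4 ≤ ((n ^ 2 / 4 : ℕ) : ℝ) := by
        have : ((n ^ 2 : ℕ) : ℝ) ≤ ((4 * (n ^ 2 / 4) + 3 : ℕ) : ℝ) := by exact_mod_cast h4
        push_cast at this ⊢
        linarith
      have h6 : ((n * (n - 1) + 2 * (n ^ 2 / 4) : ℕ) : ℝ) ≤ (maxFaces 1 4 n : ℝ) := by
        exact_mod_cast h2
      rw [Nat.cast_add, Nat.cast_mul, Nat.cast_mul, Nat.cast_sub (by omega)] at h6
      push_cast at h6 h5 ⊢
      linarith
    rw [lt_div_iff₀ (by positivity)]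
    nlinarith
  · intro a ha
    obtain ⟨C, hC⟩ := maxFaces_one_le ((a - 3 / 2) / 2) (by linarith)
    have h1 : Tendsto (fun n : ℕ => ((a - 3 / 2) / 2) * (n : ℝ)) atTop atTop :=
      hsq.const_mul_atTop (by linarith)
    filter_upwards [h1.eventually_gt_atTop |C|, eventually_ge_atTop 4] with n hn hn4
    have hn0 : (4 : ℝ) ≤ n := by exact_mod_cast hn4
    have h2 := hC n hn4
    rw [div_lt_iff₀ (by positivity)]
    have h3 : C ≤ |C| := le_abs_self C
    have h4 : (0 : ℝ) ≤ |C| := abs_nonneg C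
    have h5 : |C| * 1 ≤ |C| * n := mul_le_mul_of_nonneg_left (by linarith) h4
    have h6 : |C| * n < ((a - 3 / 2) / 2 * n) * n := mul_lt_mul_of_pos_right hn (by linarith)
    nlinarith

private theorem main_three :
    Tendsto (fun n : ℕ => (maxFaces 3 4 n : ℝ) / (n : ℝ) ^ 2) atTop (𝓝 (3 / 2)) := by
  have h0 : Tendsto (fun n : ℕ => 2 * ((n : ℝ))⁻¹) atTop (𝓝 (2 * 0)) :=
    tendsto_const_nhds.mul (tendsto_inv_atTop_zero.comp tendsto_natCast_atTop_atTop)
  have h1 := main_one.sub h0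
  rw [mul_zero, sub_zero] at h1
  refine h1.congr' ?_
  filter_upwards [eventually_ge_atTop 4] with n hn4
  have hn0 : (n : ℝ) ≠ 0 := by
    have : (4 : ℝ) ≤ n := by exact_mod_cast hn4
    linarith
  rw [← maxFaces_three n hn4]
  push_cast
  field_simp
  ring

theorem main :
    Tendsto (fun n : ℕ => (maxFaces 1 4 n : ℝ) / (n : ℝ) ^ 2) atTop (𝓝 (3 / 2)) ∧
    Tendsto (fun n : ℕ => (maxFaces 2 4 n : ℝ) / (n : ℝ) ^ 2) atTop (𝓝 3) ∧
    Tendsto (fun n : ℕ => (maxFaces 3 4 n : ℝ) / (n : ℝ) ^ 2) atTop (𝓝 (3 / 2)) := by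
  refine ⟨main_one, ?_, main_three⟩
  have h1 := main_three.const_mul 2
  rw [show (2 : ℝ) * (3 / 2) = 3 by norm_num] at h1
  refine h1.congr' ?_
  filter_upwards [eventually_ge_atTop 4] with n hn4
  rw [maxFaces_two n hn4]
  push_cast
  ring

end Pool.Agent.H.MP_4bcbbd_co
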