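import Mathlib

/-!
MP_4bcbbd_co: the pigeonhole argument.
-/

set_option autoImplicit false

namespace Pool.Agent.H.MP_4bcbbd_co

private theorem pigAux {A B C : Type} [Fintype A] [Fintype B] [Fintype C]
    [DecidableEq A] [DecidableEq B] [DecidableEq C]
    (hA : Fintype.card (Bool × Bool) < Fintype.card A)
    (hB : Fintype.card ((A → A → Bool) × (A → Bool)) < Fintype.card B)
    (hC : Fintype.card ((A → A → B → Bool) × (B → B → A → Bool)) < Fintype.card C)
    (α : A → A → B → C → Bool) (β : B → B → A → C → Bool) (γ : C → C → A → B → Bool) :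
    ∃ (a a' : A) (b b' : B) (c c' : C), a ≠ a' ∧ b ≠ b' ∧ c ≠ c' ∧
      α a a' b c = α a a' b' c ∧ α a a' b c = α a a' b c' ∧
      β b b' a c = β b b' a' c ∧ β b b' a c = β b b' a c' ∧
      γ c c' a b = γ c c' a' b ∧ γ c c' a b = γ c c' a b' := by
  classical
  obtain ⟨c, c', hc, h1⟩ := Fintype.exists_ne_map_eq_of_card_lt
    (fun k : C => ((fun a a' b => α a a' b k, fun b b' a => β b b' a k) :
      (A → A → B → Bool) × (B → B → A → Bool))) hC
  obtain ⟨b, b', hb, h2⟩ := Fintype.exists_ne_map_eq_of_card_lt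
    (fun b : B => ((fun a a' => α a a' b c, fun a => γ c c' a b) :
      (A → A → Bool) × (A → Bool))) hB
  obtain ⟨a, a', ha, h3⟩ := Fintype.exists_ne_map_eq_of_card_lt
    (fun a : A => ((β b b' a c, γ c c' a b) : Bool × Bool)) hA
  have h1a := congrArg Prod.fst h1
  have h1b := congrArg Prod.snd h1
  have h2a := congrArg Prod.fst h2
  have h2b := congrArg Prod.snd h2
  have h3a := congrArg Prod.fst h3
  have h3b := congrArg Prod.snd h3
  refine ⟨a, a', b, b', c, c', ha, hb, hc, ?_, ?_, ?_, ?_, ?_, ?_⟩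
  · exact congrFun (congrFun h2a a) a'
  · exact congrFun (congrFun (congrFun h1a a) a') b
  · exact h3a
  · exact congrFun (congrFun (congrFun h1b b) b') a
  · exact h3b
  · exact congrFun h2b a

private theorem pigGen (a b c t : ℕ) (ha : a ≤ t) (hb : b ≤ t) (hc : c ≤ t)
    (hA : Fintype.card (Bool × Bool) < a)
    (hB : Fintype.card ((Fin a → Fin a → Bool) × (Fin a → Bool)) < b)
    (hC : Fintype.card ((Fin a → Fin a → Fin b → Bool) × (Fin b → Fin b → Fin a → Bool)) < c)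
    (α β γ : Fin t → Fin t → Fin t → Fin t → Bool) :
    ∃ a a' b b' c c' : Fin t, a ≠ a' ∧ b ≠ b' ∧ c ≠ c' ∧
      α a a' b c = α a a' b' c ∧ α a a' b c = α a a' b c' ∧
      β b b' a c = β b b' a' c ∧ β b b' a c = β b b' a c' ∧
      γ c c' a b = γ c c' a' b ∧ γ c c' a b = γ c c' a b' := by
  obtain ⟨x, x', y, y', z, z', h1, h2, h3, h⟩ :=
    pigAux (A := Fin a) (B := Fin b) (C := Fin c)
      (by simpa using hA) (by rw [Fintype.card_fin b]; exact hB)
      (by rw [Fintype.card_fin c]; exact hC)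
      (fun x x' y z => α (Fin.castLE ha x) (Fin.castLE ha x') (Fin.castLE hb y) (Fin.castLE hc z))
      (fun y y' x z => β (Fin.castLE hb y) (Fin.castLE hb y') (Fin.castLE ha x) (Fin.castLE hc z))
      (fun z z' x y => γ (Fin.castLE hc z) (Fin.castLE hc z') (Fin.castLE ha x) (Fin.castLE hb y))
  exact ⟨Fin.castLE ha x, Fin.castLE ha x', Fin.castLE hb y, Fin.castLE hb y',
    Fin.castLE hc z, Fin.castLE hc z',
    fun e => h1 (Fin.castLE_injective ha e), fun e => h2 (Fin.castLE_injective hb e),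
    fun e => h3 (Fin.castLE_injective hc e), h⟩

theorem pigeon : ∃ t : ℕ, ∀ α β γ : Fin t → Fin t → Fin t → Fin t → Bool,
    ∃ a a' b b' c c' : Fin t, a ≠ a' ∧ b ≠ b' ∧ c ≠ c' ∧
      α a a' b c = α a a' b' c ∧ α a a' b c = α a a' b c' ∧
      β b b' a c = β b b' a' c ∧ β b b' a c = β b b' a c' ∧
      γ c c' a b = γ c c' a' b ∧ γ c c' a b = γ c c' a b' := by
  obtain ⟨a, hA⟩ : ∃ a : ℕ, Fintype.card (Bool × Bool) < a := ⟨_, Nat.lt_succ_self _⟩
  obtain ⟨b, hB⟩ : ∃ b : ℕ, Fintype.card ((Fin a → Fin a → Bool) × (Fin a → Bool)) < b :=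
    ⟨_, Nat.lt_succ_self _⟩
  obtain ⟨c, hC⟩ : ∃ c : ℕ, Fintype.card ((Fin a → Fin a → Fin b → Bool) ×
      (Fin b → Fin b → Fin a → Bool)) < c := ⟨_, Nat.lt_succ_self _⟩
  exact ⟨a + b + c, pigGen a b c (a + b + c) (by omega) (by omega) (by omega) hA hB hC⟩

end Pool.Agent.H.MP_4bcbbd_co
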