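import Pool.Agent.H.MP_4bcbbd_co.Key
import Pool.Agent.H.MP_4bcbbd_co.Pig

/-!
MP_4bcbbd_co: the graph of full pairs contains no large complete tripartite graph.
-/

set_option autoImplicit false

namespace Pool.Agent.H.MP_4bcbbd_co

private theorem noK_cl : ∀ i j : Fin 6, (i : ℕ) / 2 ≠ (j : ℕ) / 2 →
    (![0, 0, 1, 1, 2, 2] : Fin 6 → Fin 3) i ≠ (![0, 0, 1, 1, 2, 2] : Fin 6 → Fin 3) j := by
  decide

private theorem noK_same : ∀ i j : Fin 6,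
    (![0, 0, 1, 1, 2, 2] : Fin 6 → Fin 3) i = (![0, 0, 1, 1, 2, 2] : Fin 6 → Fin 3) j → i ≠ j →
    (i = 0 ∧ j = 1) ∨ (i = 1 ∧ j = 0) ∨ (i = 2 ∧ j = 3) ∨ (i = 3 ∧ j = 2) ∨ (i = 4 ∧ j = 5) ∨
      (i = 5 ∧ j = 4) := by
  decide

theorem noK : ∃ t : ℕ, ∀ V : Finset (E 4), CSData V → ∀ r : Fin 3 → Fin t → E 4,
    (∀ i x, r i x ∈ V) →
    (∀ i x j y, (i, x) ≠ (j, y) → r i x ≠ r j y ∧ r i x ≠ -r j y) →
    (∀ i x j y, i ≠ j → Full V (r i x) (r j y)) → False := by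
  classical
  obtain ⟨t, ht⟩ := pigeon
  refine ⟨t, fun V hV r hr hne hfull => ?_⟩
  obtain ⟨a, a', b, b', c, c', haa, hbb, hcc, h1, h2, h3, h4, h5, h6⟩ :=
    ht (fun a a' b c => decide (0 < D (r 0 a) (r 0 a') (r 1 b) (r 2 c)))
      (fun b b' a c => decide (0 < D (r 1 b) (r 1 b') (r 0 a) (r 2 c)))
      (fun c c' a b => decide (0 < D (r 2 c) (r 2 c') (r 0 a) (r 1 b)))
  rw [decide_eq_decide] at h1 h2 h3 h4 h5 h6
  obtain ⟨cl, hcl⟩ : ∃ cl : Fin 6 → Fin 3, cl = ![0, 0, 1, 1, 2, 2] := ⟨_, rfl⟩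
  obtain ⟨ix, hix⟩ : ∃ ix : Fin 6 → Fin t, ix = ![a, a', b, b', c, c'] := ⟨_, rfl⟩
  have hinj : ∀ k l, k ≠ l → (cl k, ix k) ≠ (cl l, ix l) := by
    intro k l hkl heq
    have e1 : cl k = cl l := congrArg Prod.fst heq
    have e2 : ix k = ix l := congrArg Prod.snd heq
    rw [hcl] at e1
    rcases noK_same k l e1 hkl with ⟨rfl, rfl⟩ | ⟨rfl, rfl⟩ | ⟨rfl, rfl⟩ | ⟨rfl, rfl⟩ |
      ⟨rfl, rfl⟩ | ⟨rfl, rfl⟩
    · rw [hix] at e2; exact haa e2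
    · rw [hix] at e2; exact haa e2.symm
    · rw [hix] at e2; exact hbb e2
    · rw [hix] at e2; exact hbb e2.symm
    · rw [hix] at e2; exact hcc e2
    · rw [hix] at e2; exact hcc e2.symm
  have hx : ∀ i j : Fin 6, (i : ℕ) / 2 ≠ (j : ℕ) / 2 → ∀ s : ℝ, (s = 1 ∨ s = -1) →
      ∃ l : E 4 →L[ℝ] ℝ, l (r (cl i) (ix i)) = 1 ∧ l (r (cl j) (ix j)) = s ∧
        ∀ k, k ≠ i → k ≠ j → |l (r (cl k) (ix k))| < 1 := by
    intro i j hij s hs
    have hcij : cl i ≠ cl j := by rw [hcl]; exact noK_cl i j hij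
    obtain ⟨-, -, hf1, hf2⟩ := hfull (cl i) (ix i) (cl j) (ix j) hcij
    rcases hs with rfl | rfl
    · obtain ⟨l, hl1, hl2, hl3⟩ := hf1
      refine ⟨l, hl1, hl2, fun k hki hkj => ?_⟩
      obtain ⟨n1, n2⟩ := hne _ _ _ _ (hinj k i hki)
      obtain ⟨n3, n4⟩ := hne _ _ _ _ (hinj k j hkj)
      have g1 := hl3 _ (hr (cl k) (ix k)) n1 n3
      have g2 := hl3 _ (hV.neg _ (hr (cl k) (ix k)))
        (fun h => n2 (by rw [← h, neg_neg])) (fun h => n4 (by rw [← h, neg_neg]))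
      rw [map_neg] at g2
      rw [abs_lt]
      constructor <;> linarith
    · obtain ⟨l, hl1, hl2, hl3⟩ := hf2
      refine ⟨l, hl1, hl2, fun k hki hkj => ?_⟩
      obtain ⟨n1, n2⟩ := hne _ _ _ _ (hinj k i hki)
      obtain ⟨n3, n4⟩ := hne _ _ _ _ (hinj k j hkj)
      have g1 := hl3 _ (hr (cl k) (ix k)) n1 n4
      have g2 := hl3 _ (hV.neg _ (hr (cl k) (ix k)))
        (fun h => n2 (by rw [← h, neg_neg])) (fun h => n3 (neg_injective h))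
      rw [map_neg] at g2
      rw [abs_lt]
      constructor <;> linarith
  refine key (fun k => r (cl k) (ix k)) hx ?_ ?_ ?_ ?_ ?_ ?_
  all_goals
    simp only [hcl, hix]
  · exact h1
  · exact h2
  · exact h3
  · exact h4
  · exact h5
  · exact h6

end Pool.Agent.H.MP_4bcbbd_co
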