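import Pool.Agent.H.MP_4bcbbd_co.Base

/-!
MP_4bcbbd_co: from combinatorial data to polytopes.
-/

set_option autoImplicit false

namespace Pool.Agent.H.MP_4bcbbd_co

variable {d : ℕ}

theorem isPolytope_of_data (hd : 0 < d) {V : Finset (E d)} (hV : CSData V) :
    IsPolytope (convexHull ℝ (V : Set (E d))) ∧ IsCentSymm (convexHull ℝ (V : Set (E d))) := by
  have hne : (V : Set (E d)).Nonempty := by
    rw [Set.nonempty_iff_ne_empty]
    intro h0
    have h1 := hV.span
    rw [h0, Submodule.span_empty] at h1
    have h2 : Nontrivial (E d) := by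
      have : Nonempty (Fin d) := ⟨⟨0, hd⟩⟩
      infer_instance
    exact bot_ne_top h1
  refine ⟨⟨⟨V, V.finite_toSet, rfl⟩, ?_⟩, ?_⟩
  · rw [interior_convexHull_nonempty_iff_affineSpan_eq_top,
      AffineSubspace.affineSpan_eq_top_iff_vectorSpan_eq_top_of_nonempty ℝ (E d) (E d) hne,
      eq_top_iff, ← hV.span, Submodule.span_le]
    intro v hv
    have h1 : v -ᵥ (-v) ∈ vectorSpan ℝ (V : Set (E d)) :=
      vsub_mem_vectorSpan ℝ hv (hV.neg v hv)
    have h2 : v = (1 / 2 : ℝ) • (v -ᵥ (-v)) := by
      rw [vsub_eq_sub, sub_neg_eq_add, ← two_smul ℝ v, smul_smul]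
      norm_num
    rw [SetLike.mem_coe, h2]
    exact Submodule.smul_mem _ _ h1
  · intro x hx
    have h1 : convexHull ℝ (V : Set (E d)) ⊆ {x | -x ∈ convexHull ℝ (V : Set (E d))} := by
      refine convexHull_min (fun v hv => subset_convexHull ℝ _ (hV.neg v hv)) ?_
      exact (convex_convexHull ℝ (V : Set (E d))).neg
    exact h1 hx

theorem extremePoints_of_data {V : Finset (E d)} (hV : CSData V) :
    (convexHull ℝ (V : Set (E d))).extremePoints ℝ = (V : Set (E d)) := by
  refine Set.Subset.antisymm extremePoints_convexHull_subset ?_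
  intro v hv
  obtain ⟨l, hl1, hl2⟩ := hV.vert v hv
  have hlv : l v = 1 := hl1 v (Finset.mem_singleton_self v)
  have hsub : convexHull ℝ (V : Set (E d)) ⊆ {x | l x < 1 ∨ x = v} := by
    refine convexHull_min ?_ ?_
    · intro w hw
      by_cases h : w = v
      · exact Or.inr h
      · exact Or.inl (hl2 w hw (by simpa using h))
    · intro x hx y hy a b ha hb hab
      simp only [Set.mem_ofPred_eq] at hx hy ⊢
      have hlx : l x ≤ 1 := by
        rcases hx with h | h
        · exact h.le
        · rw [h, hlv]
      have hly : l y ≤ 1 := by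
        rcases hy with h | h
        · exact h.le
        · rw [h, hlv]
      have hval : l (a • x + b • y) = a * l x + b * l y := by
        rw [map_add, map_smul, map_smul, smul_eq_mul, smul_eq_mul]
      rcases eq_or_lt_of_le ha with h0 | h0
      · have hb1 : b = 1 := by linarith
        rw [← h0, hb1, zero_smul, zero_add, one_smul]
        exact hy
      rcases eq_or_lt_of_le hb with h0' | h0'
      · have ha1 : a = 1 := by linarith
        rw [← h0', ha1, zero_smul, add_zero, one_smul]
        exact hx
      rcases hx with h | h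
      · left
        rw [hval]
        nlinarith
      · rcases hy with h' | h'
        · left
          rw [hval]
          nlinarith
        · right
          rw [h, h', ← add_smul, hab, one_smul]
  refine ⟨subset_convexHull ℝ _ hv, ?_⟩
  intro x hx y hy hxy
  obtain ⟨a, b, ha, hb, hab, hv'⟩ := hxy
  have h1 : a * l x + b * l y = 1 := by
    rw [← hlv, ← hv', map_add, map_smul, map_smul, smul_eq_mul, smul_eq_mul]
  have hx' := hsub hx
  have hy' := hsub hy
  simp only [Set.mem_ofPred_eq] at hx' hy'
  have hlx : l x ≤ 1 := by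
    rcases hx' with h | h
    · exact h.le
    · rw [h, hlv]
  have hly : l y ≤ 1 := by
    rcases hy' with h | h
    · exact h.le
    · rw [h, hlv]
  rcases hx' with h | h
  · exfalso
    nlinarith
  · exact h

/-- a supported subset is recovered from the face. -/
theorem mem_of_mem_hull {V W : Finset (E d)} (hW : W ⊆ V) (h : Spt V W) {v : E d} (hv : v ∈ V)
    (hv' : v ∈ convexHull ℝ (W : Set (E d))) : v ∈ W := by
  obtain ⟨l, hl1, hl2⟩ := h
  have hsub : convexHull ℝ (W : Set (E d)) ⊆ {x | l x = 1} := by
    refine convexHull_min (fun w hw => hl1 w hw) ?_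
    intro x hx y hy a b ha hb hab
    simp only [Set.mem_ofPred_eq] at hx hy ⊢
    rw [map_add, map_smul, map_smul, smul_eq_mul, smul_eq_mul, hx, hy]
    linarith
  have h1 : l v = 1 := hsub hv'
  by_contra hcon
  have := hl2 v hv hcon
  linarith

end Pool.Agent.H.MP_4bcbbd_co
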