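import Pool.Agent.H.MP_4bcbbd_co.PolyA

/-!
MP_4bcbbd_co: the proper faces.
-/

set_option autoImplicit false

namespace Pool.Agent.H.MP_4bcbbd_co

variable {d : ℕ}

/-- the face cut out by a supporting hyperplane is the hull of the points on it. -/
private theorem polyC_face {V : Finset (E d)} {l : E d →L[ℝ] ℝ} (hl : ∀ v ∈ V, l v ≤ 1)
    {W : Finset (E d)} (hW : ∀ v, v ∈ W ↔ v ∈ V ∧ l v = 1) :
    {x ∈ convexHull ℝ (V : Set (E d)) | l x = 1} = convexHull ℝ (W : Set (E d)) := by
  classical
  have hWV : W ⊆ V := fun v hv => ((hW v).1 hv).1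
  ext x
  constructor
  · rintro ⟨hx, hx1⟩
    rw [Finset.mem_convexHull'] at hx ⊢
    obtain ⟨w, hw0, hw1, hwx⟩ := hx
    have h0 : ∀ v ∈ V, v ∉ W → w v = 0 := by
      have hsum : ∑ v ∈ V, w v * (1 - l v) = 0 := by
        have h2 : l x = ∑ v ∈ V, w v * l v := by
          rw [← hwx, map_sum]
          refine Finset.sum_congr rfl fun v _ => ?_
          rw [map_smul, smul_eq_mul]
        have h3 : ∑ v ∈ V, w v * (1 - l v) = ∑ v ∈ V, w v - ∑ v ∈ V, w v * l v := by
          rw [← Finset.sum_sub_distrib]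
          refine Finset.sum_congr rfl fun v _ => by ring
        rw [h3, hw1, ← h2, hx1, sub_self]
      have h4 := (Finset.sum_eq_zero_iff_of_nonneg (fun v hv =>
        mul_nonneg (hw0 v hv) (by linarith [hl v hv]))).1 hsum
      intro v hv hvW
      rcases mul_eq_zero.1 (h4 v hv) with h5 | h5
      · exact h5
      · exact absurd ((hW v).2 ⟨hv, by linarith⟩) hvW
    refine ⟨w, fun v hv => hw0 v (hWV hv), ?_, ?_⟩
    · rw [← hw1]
      exact Finset.sum_subset hWV fun v hv hvW => h0 v hv hvW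
    · rw [← hwx]
      refine Finset.sum_subset hWV fun v hv hvW => ?_
      rw [h0 v hv hvW, zero_smul]
  · intro hx
    refine ⟨convexHull_mono (by exact_mod_cast hWV) hx, ?_⟩
    have hc : Convex ℝ {x : E d | l x = 1} := by
      intro a ha b hb s t _ _ hst
      have ha' : l a = 1 := ha
      have hb' : l b = 1 := hb
      show l (s • a + t • b) = 1
      rw [map_add, map_smul, map_smul, ha', hb', smul_eq_mul, smul_eq_mul, mul_one, mul_one, hst]
    have hsub : (W : Set (E d)) ⊆ {x : E d | l x = 1} := fun v hv => ((hW v).1 hv).2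
    exact convexHull_min hsub hc hx

private theorem polyC_le {V : Finset (E d)} {l : E d →L[ℝ] ℝ} (hl : ∀ v ∈ V, l v ≤ 1)
    {x : E d} (hx : x ∈ convexHull ℝ (V : Set (E d))) : l x ≤ 1 := by
  have hc : Convex ℝ {x : E d | l x ≤ 1} := by
    intro a ha b hb s t hs ht hst
    have ha' : l a ≤ 1 := ha
    have hb' : l b ≤ 1 := hb
    show l (s • a + t • b) ≤ 1
    rw [map_add, map_smul, map_smul, smul_eq_mul, smul_eq_mul]
    nlinarith
  exact convexHull_min (fun v hv => hl v hv) hc hx

private theorem polyC_neg {V : Finset (E d)} (hV : CSData V) {x : E d}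
    (hx : x ∈ convexHull ℝ (V : Set (E d))) : -x ∈ convexHull ℝ (V : Set (E d)) := by
  have hc : Convex ℝ {x : E d | -x ∈ convexHull ℝ (V : Set (E d))} := by
    intro a ha b hb s t hs ht hst
    show -(s • a + t • b) ∈ convexHull ℝ (V : Set (E d))
    have h1 := (convex_convexHull ℝ (V : Set (E d))) ha hb hs ht hst
    have e : -(s • a + t • b) = s • (-a) + t • (-b) := by
      rw [neg_add, smul_neg, smul_neg]
    rw [e]
    exact h1
  have hsub : (V : Set (E d)) ⊆ {x : E d | -x ∈ convexHull ℝ (V : Set (E d))} := by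
    intro v hv
    exact subset_convexHull ℝ (V : Set (E d)) (hV.neg v hv)
  exact convexHull_min hsub hc hx

/-- the proper faces are the hulls of the supported subsets. -/
theorem isProperFace_iff (hd : 0 < d) {V : Finset (E d)} (hV : CSData V) (F : Set (E d)) :
    IsProperFace (convexHull ℝ (V : Set (E d))) F ↔
      ∃ W ⊆ V, W.Nonempty ∧ Spt V W ∧ F = convexHull ℝ (W : Set (E d)) := by
  classical
  constructor
  · rintro ⟨hFn, hFP, hF⟩
    obtain ⟨l, hlF⟩ := hF hFn
    obtain ⟨x0, hx0⟩ := hFn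
    have hx0' := hx0
    rw [hlF] at hx0'
    obtain ⟨hx0P, hmax⟩ := hx0'
    have hM : 0 < l x0 := by
      by_contra hM
      push Not at hM
      have h0 : ∀ y ∈ convexHull ℝ (V : Set (E d)), l y = 0 := by
        intro y hy
        have h1 := hmax y hy
        have h2 := hmax (-y) (polyC_neg hV hy)
        rw [map_neg] at h2
        linarith
      apply hFP
      rw [hlF]
      ext x
      constructor
      · exact fun hx => hx.1
      · intro hx
        exact ⟨hx, fun y hy => by rw [h0 y hy, h0 x hx]⟩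
    let l' : E d →L[ℝ] ℝ := (l x0)⁻¹ • l
    have hl' : ∀ x, l' x = (l x0)⁻¹ * l x := fun x => rfl
    have hle : ∀ v ∈ V, l' v ≤ 1 := by
      intro v hv
      rw [hl']
      have h1 := hmax v (subset_convexHull ℝ _ hv)
      calc (l x0)⁻¹ * l v ≤ (l x0)⁻¹ * l x0 :=
            mul_le_mul_of_nonneg_left h1 (inv_nonneg.2 hM.le)
        _ = 1 := inv_mul_cancel₀ hM.ne'
    have hF1 : F = {x ∈ convexHull ℝ (V : Set (E d)) | l' x = 1} := by
      rw [hlF]
      ext x
      constructor
      · rintro ⟨hx, hx1⟩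
        refine ⟨hx, ?_⟩
        have h2 : l x = l x0 := le_antisymm (hmax x hx) (hx1 x0 hx0P)
        rw [hl', h2, inv_mul_cancel₀ hM.ne']
      · rintro ⟨hx, hx1⟩
        refine ⟨hx, fun y hy => ?_⟩
        have h2 : l x = l x0 := by
          rw [hl'] at hx1
          field_simp at hx1
          linarith
        rw [h2]
        exact hmax y hy
    let W : Finset (E d) := V.filter fun v => l' v = 1
    have hW : ∀ v, v ∈ W ↔ v ∈ V ∧ l' v = 1 := fun v => Finset.mem_filter
    have hFW : F = convexHull ℝ (W : Set (E d)) := by rw [hF1, polyC_face hle hW]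
    refine ⟨W, Finset.filter_subset _ _, ?_, ⟨l', fun w hw => ((hW w).1 hw).2,
      fun v hv hvW => lt_of_le_of_ne (hle v hv) fun h => hvW ((hW v).2 ⟨hv, h⟩)⟩, hFW⟩
    rw [hFW] at hx0
    have h5 : (W : Set (E d)).Nonempty := convexHull_nonempty_iff.1 ⟨x0, hx0⟩
    exact_mod_cast h5
  · rintro ⟨W, hWV, hWn, ⟨l, hl1, hl2⟩, rfl⟩
    have hle : ∀ v ∈ V, l v ≤ 1 := by
      intro v hv
      by_cases hvW : v ∈ W
      · exact (hl1 v hvW).le
      · exact (hl2 v hv hvW).le
    have hW : ∀ v, v ∈ W ↔ v ∈ V ∧ l v = 1 := by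
      intro v
      constructor
      · exact fun hv => ⟨hWV hv, hl1 v hv⟩
      · rintro ⟨hv, h1⟩
        by_contra hvW
        exact absurd h1 (hl2 v hv hvW).ne
    obtain ⟨w, hw⟩ := hWn
    have hwP : w ∈ convexHull ℝ (V : Set (E d)) := subset_convexHull ℝ _ (hWV hw)
    rw [← polyC_face hle hW]
    refine ⟨⟨w, hwP, hl1 w hw⟩, ?_, ?_⟩
    · intro h
      have h0 : (0 : E d) ∈ convexHull ℝ (V : Set (E d)) := by
        have h1 := (convex_convexHull ℝ (V : Set (E d))) hwP (polyC_neg hV hwP)
          (by norm_num : (0 : ℝ) ≤ 1 / 2) (by norm_num : (0 : ℝ) ≤ 1 / 2) (by norm_num)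
        have e : (1 / 2 : ℝ) • w + (1 / 2 : ℝ) • (-w) = 0 := by
          rw [smul_neg, add_neg_cancel]
        rwa [e] at h1
      rw [← h] at h0
      have := h0.2
      rw [map_zero] at this
      exact zero_ne_one this
    · intro _
      refine ⟨l, ?_⟩
      ext x
      constructor
      · rintro ⟨hx, hx1⟩
        exact ⟨hx, fun y hy => by rw [hx1]; exact polyC_le hle hy⟩
      · rintro ⟨hx, hx1⟩
        refine ⟨hx, le_antisymm (polyC_le hle hx) ?_⟩
        have := hx1 w hwP
        rwa [hl1 w hw] at this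

end Pool.Agent.H.MP_4bcbbd_co
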