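import Pool.Agent.H.MP_4bcbbd_co.Gen

/-!
MP_4bcbbd_co: the centrally symmetric point sets on the curve.
-/

set_option autoImplicit false

namespace Pool.Agent.H.MP_4bcbbd_co

open Real

open Classical in
/-- the point set `±U(θ_i)`. -/
noncomputable def pts {n : ℕ} (θ : Fin n → ℝ) : Finset (E 4) :=
  Finset.univ.image (fun i => U (θ i)) ∪ Finset.univ.image (fun i => -U (θ i))

theorem mem_pts {n : ℕ} {θ : Fin n → ℝ} {v : E 4} :
    v ∈ pts θ ↔ (∃ i, U (θ i) = v) ∨ (∃ i, -U (θ i) = v) := by
  classical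
  unfold pts
  simp only [Finset.mem_union, Finset.mem_image, Finset.mem_univ, true_and]

theorem pts_U_ne_neg (t : ℝ) : U t ≠ -U t := by
  rw [← U_add_pi, Ne, U_eq_iff, cos_add_pi, sin_add_pi]
  rintro ⟨h1, h2⟩
  have h3 : cos t = 0 := by linarith
  have h4 : sin t = 0 := by linarith
  have h5 := sin_sq_add_cos_sq t
  rw [h3, h4] at h5
  norm_num at h5

/-- every point of the set lies on the curve. -/
theorem pts_on_curve {n : ℕ} {θ : Fin n → ℝ} {v : E 4} (hv : v ∈ pts θ) : ∃ φ, U φ = v := by
  rcases mem_pts.1 hv with ⟨i, hi⟩ | ⟨i, hi⟩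
  · exact ⟨θ i, hi⟩
  · exact ⟨θ i + π, by rw [U_add_pi, hi]⟩

theorem pts_card {n : ℕ} (θ : Fin n → ℝ) (h : Good θ) : (pts θ).card = 2 * n := by
  classical
  have hinj : Function.Injective (fun i => U (θ i)) := by
    intro i j hij
    by_contra hne
    exact (h.ne i j hne).1 hij
  have hinj' : Function.Injective (fun i => -U (θ i)) := by
    intro i j hij
    exact hinj (neg_injective hij)
  have hdisj : Disjoint (Finset.univ.image (fun i => U (θ i)))
      (Finset.univ.image (fun i => -U (θ i))) := by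
    rw [Finset.disjoint_left]
    intro v hv hv'
    simp only [Finset.mem_image, Finset.mem_univ, true_and] at hv hv'
    obtain ⟨i, rfl⟩ := hv
    obtain ⟨j, hj⟩ := hv'
    by_cases hij : i = j
    · subst hij
      exact pts_U_ne_neg (θ i) hj.symm
    · exact (h.ne i j hij).2 hj.symm
  unfold pts
  rw [Finset.card_union_of_disjoint hdisj, Finset.card_image_of_injective _ hinj,
    Finset.card_image_of_injective _ hinj', Finset.card_univ, Fintype.card_fin]
  ring

theorem pts_data {n : ℕ} (hn : 4 ≤ n) (θ : Fin n → ℝ) (h : Good θ) : CSData (pts θ) := by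
  refine ⟨?_, ?_, ?_⟩
  · intro v hv
    rcases mem_pts.1 hv with ⟨i, hi⟩ | ⟨i, hi⟩
    · exact mem_pts.2 (Or.inr ⟨i, by rw [hi]⟩)
    · exact mem_pts.2 (Or.inl ⟨i, by rw [← hi, neg_neg]⟩)
  · intro v hv
    obtain ⟨α, rfl⟩ := pts_on_curve hv
    obtain ⟨l, hl1, -, hl2⟩ := U_support α α (by
      rw [sub_self, abs_zero]
      have := pi_pos
      positivity)
    refine ⟨l, ?_, ?_⟩
    · intro w hw
      rw [Finset.mem_singleton.1 hw, hl1]
    · intro w hw hw'
      obtain ⟨φ, rfl⟩ := pts_on_curve hw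
      have hne : U φ ≠ U α := fun h' => hw' (Finset.mem_singleton.2 h')
      exact hl2 φ hne hne
  · have hi : LinearIndependent ℝ (fun k : Fin 4 => U (θ (Fin.castLE hn k))) := by
      refine U_indep (fun k => θ (Fin.castLE hn k)) ?_
      intro i j hij
      exact h.ne _ _ (fun h' => hij (Fin.castLE_injective hn h'))
    have ht := hi.span_eq_top_of_card_eq_finrank' (by simp)
    rw [← top_le_iff, ← ht]
    refine Submodule.span_mono ?_
    rintro _ ⟨k, rfl⟩
    exact mem_pts.2 (Or.inl ⟨_, rfl⟩)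

theorem pts_simp {n : ℕ} (hn : 4 ≤ n) (θ : Fin n → ℝ) (h : Good θ) : Simp (pts θ) := by
  classical
  rintro W hW ⟨l, hl, -⟩
  -- indices and signs
  have hex : ∀ w : W, ∃ (i : Fin n) (s : ℝ), (s = 1 ∨ s = -1) ∧ s • U (θ i) = (w : E 4) := by
    rintro ⟨w, hw⟩
    rcases mem_pts.1 (hW hw) with ⟨i, hi⟩ | ⟨i, hi⟩
    · exact ⟨i, 1, Or.inl rfl, by rw [one_smul, hi]⟩
    · exact ⟨i, -1, Or.inr rfl, by rw [neg_smul, one_smul, hi]⟩
  choose i s hs hi using hex
  have hinj : Function.Injective i := by
    intro w w' hww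
    have h1 := hi w
    have h2 := hi w'
    rw [← hww] at h2
    have hlw := hl _ w.2
    have hlw' := hl _ w'.2
    rw [← h1, map_smul, smul_eq_mul] at hlw
    rw [← h2, map_smul, smul_eq_mul] at hlw'
    apply Subtype.ext
    rw [← h1, ← h2]
    rcases hs w with e | e <;> rcases hs w' with e' | e' <;> rw [e, e'] <;>
      rw [e] at hlw <;> rw [e'] at hlw' <;> exfalso <;> linarith
  have hcard : Fintype.card W ≤ 4 := by
    by_contra hlt
    push Not at hlt
    obtain ⟨g⟩ : Nonempty (Fin 5 ↪ W) := by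
      apply Function.Embedding.nonempty_of_card_le
      rw [Fintype.card_fin]
      exact hlt
    refine h.gen (fun k => i (g k)) (hinj.comp g.injective) (fun k => s (g k))
      (fun k => hs _) ⟨l, fun k => ?_⟩
    have h1 := hi (g k)
    have h2 := hl _ (g k).2
    rw [← h1, map_smul, smul_eq_mul] at h2
    rcases hs (g k) with e | e
    · rw [e] at h2 ⊢; linarith
    · rw [e] at h2 ⊢; linarith
  obtain ⟨J, hJ, hJ4⟩ := Finset.exists_superset_card_eq (s := Finset.univ.image i) (n := 4)
    (Finset.card_image_le.trans (by simpa using hcard)) (by simpa using hn)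
  let e := J.equivFinOfCardEq hJ4
  have h4 : LinearIndependent ℝ (fun k : Fin 4 => U (θ (e.symm k))) := by
    refine U_indep (fun k => θ (e.symm k)) ?_
    intro a b hab
    exact h.ne _ _ (fun h' => hab (e.symm.injective (Subtype.ext h')))
  have h5 := h4.comp (fun w : W => e ⟨i w, hJ (Finset.mem_image_of_mem i (Finset.mem_univ w))⟩)
    (by
      intro w w' hww
      have := e.injective hww
      exact hinj (Subtype.ext_iff.1 this))
  have h6 : LinearIndependent ℝ (fun w : W => U (θ (i w))) := by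
    have h9 : (fun w : W => U (θ (i w))) = (fun k : Fin 4 => U (θ (e.symm k))) ∘
        (fun w : W => e ⟨i w, hJ (Finset.mem_image_of_mem i (Finset.mem_univ w))⟩) := by
      funext w
      simp only [Function.comp_apply, Equiv.symm_apply_apply]
    rw [h9]
    exact h5
  have hne : ∀ w, s w ≠ 0 := by
    intro w
    rcases hs w with e | e <;> rw [e] <;> norm_num
  have h7 := h6.units_smul (fun w => Units.mk0 (s w) (hne w))
  have h8 : ((fun w => Units.mk0 (s w) (hne w)) • (fun w : W => U (θ (i w)))) =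
      ((↑) : W → E 4) := by
    funext w
    exact hi w
  rw [h8] at h7
  exact h7

end Pool.Agent.H.MP_4bcbbd_co
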