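import Pool.Agent.H.MP_4bcbbd_co.Pts

/-!
MP_4bcbbd_co: counting edges of the point sets on the curve.
-/

set_option autoImplicit false

namespace Pool.Agent.H.MP_4bcbbd_co

open Real

/-- signed points. -/
private noncomputable def gPt {n : ℕ} (θ : Fin n → ℝ) (x : Fin n × Bool) : E 4 :=
  if x.2 = true then -U (θ x.1) else U (θ x.1)

private lemma U_ne_neg (t : ℝ) : U t ≠ -U t := by
  intro h
  rw [← U_add_pi, U_eq_iff, cos_add_pi, sin_add_pi] at h
  have := sin_sq_add_cos_sq t
  have h1 : cos t = 0 := by linarith [h.1]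
  have h2 : sin t = 0 := by linarith [h.2]
  rw [h1, h2] at this
  norm_num at this

private lemma gPt_inj {n : ℕ} {θ : Fin n → ℝ} (h : Good θ) : Function.Injective (gPt θ) := by
  rintro ⟨i, s⟩ ⟨j, t⟩ hg
  simp only [gPt] at hg
  by_cases hij : i = j
  · subst hij
    cases s <;> cases t <;> simp at hg ⊢
    · exact (U_ne_neg _ hg).elim
    · exact (U_ne_neg _ hg.symm).elim
  · exfalso
    have h1 := h.ne i j hij
    have h2 := h.ne j i (Ne.symm hij)
    cases s <;> cases t <;> simp at hg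
    · exact h1.1 hg
    · exact h1.2 hg
    · exact h2.2 hg.symm
    · exact h1.1 hg

private lemma gPt_mem {n : ℕ} (θ : Fin n → ℝ) (x : Fin n × Bool) : gPt θ x ∈ pts θ := by
  classical
  obtain ⟨i, s⟩ := x
  unfold pts gPt
  cases s <;> simp

private lemma spt_pair {n : ℕ} (θ : Fin n → ℝ) (α β : ℝ) (h : |α - β| < 2 * π / 3) :
    Spt (pts θ) {U α, U β} := by
  classical
  obtain ⟨l, h1, h2, h3⟩ := U_support α β h
  refine ⟨l, ?_, ?_⟩
  · intro w hw
    rw [Finset.mem_insert, Finset.mem_singleton] at hw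
    rcases hw with rfl | rfl
    · exact h1
    · exact h2
  · intro v hv hv2
    rw [Finset.mem_insert, Finset.mem_singleton, not_or] at hv2
    unfold pts at hv
    rw [Finset.mem_union, Finset.mem_image, Finset.mem_image] at hv
    rcases hv with ⟨i, -, rfl⟩ | ⟨i, -, rfl⟩
    · exact h3 _ hv2.1 hv2.2
    · rw [← U_add_pi] at hv2 ⊢
      exact h3 _ hv2.1 hv2.2

private def good (p q : ℕ) (x : (Fin (p + q) × Fin (p + q)) × Bool × Bool) : Prop :=
  (x.1.1 : ℕ) < x.1.2 ∧ ((x.2.1 = x.2.2 ∧ ((x.1.2 : ℕ) < p ∨ p ≤ (x.1.1 : ℕ))) ∨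
    ((x.1.1 : ℕ) < p ∧ p ≤ (x.1.2 : ℕ)))

open Classical in
private noncomputable def prt {n : ℕ} (θ : Fin n → ℝ) (x : (Fin n × Fin n) × Bool × Bool) :
    Finset (E 4) := {gPt θ (x.1.1, x.2.1), gPt θ (x.1.2, x.2.2)}

private lemma prt_mem (p q : ℕ) (θ : Fin (p + q) → ℝ) (h : Good θ)
    (h1 : ∀ i : Fin (p + q), (i : ℕ) < p → -(1 / 10) < θ i ∧ θ i < 1 / 10)
    (h2 : ∀ i : Fin (p + q), p ≤ (i : ℕ) → π / 2 - 1 / 10 < θ i ∧ θ i < π / 2 + 1 / 10)
    (x : (Fin (p + q) × Fin (p + q)) × Bool × Bool) (hx : good p q x) :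
    prt θ x ∈ fc (pts θ) 2 := by
  classical
  obtain ⟨⟨i, j⟩, s, t⟩ := x
  obtain ⟨hij, hx⟩ := hx
  simp only at hij hx
  have hpi := pi_gt_three
  rw [mem_fc]
  refine ⟨?_, ?_, ?_⟩
  · intro w hw
    unfold prt at hw
    rw [Finset.mem_insert, Finset.mem_singleton] at hw
    rcases hw with rfl | rfl <;> exact gPt_mem _ _
  · unfold prt
    rw [Finset.card_pair]
    intro e
    have := gPt_inj h e
    simp only [Prod.mk.injEq] at this
    rw [this.1] at hij
    exact lt_irrefl _ hij
  · have key : ∀ α β : ℝ, |α - β| < 2 * π / 3 → gPt θ (i, s) = U α → gPt θ (j, t) = U β →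
        Spt (pts θ) (prt θ ((i, j), s, t)) := by
      intro α β hab e1 e2
      unfold prt
      simp only
      rw [e1, e2]
      exact spt_pair θ α β hab
    have hm : ∀ t : ℝ, -U t = U (t - π) := by
      intro t
      have := U_add_pi (t - π)
      rw [sub_add_cancel] at this
      rw [this, neg_neg]
    have hp : ∀ t : ℝ, -U t = U (t + π) := fun t => (U_add_pi t).symm
    have same : ∀ s' : Bool, s = s' → t = s' → |θ i - θ j| < 2 * π / 3 →
        Spt (pts θ) (prt θ ((i, j), s, t)) := by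
      intro s' e1 e2 hab
      subst e1
      subst e2
      cases t
      · exact key _ _ hab (by simp [gPt]) (by simp [gPt])
      · exact key (θ i + π) (θ j + π) (by simpa using hab) (by simp [gPt, hp]) (by simp [gPt, hp])
    rcases hx with ⟨hst, hx⟩ | ⟨hx1, hx2⟩
    · refine same s rfl hst.symm ?_
      rcases hx with hx | hx
      · have a1 := h1 i (by omega)
        have a2 := h1 j hx
        rw [abs_lt]
        constructor <;> linarith [a1.1, a1.2, a2.1, a2.2]
      · have a1 := h2 i hx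
        have a2 := h2 j (by omega)
        rw [abs_lt]
        constructor <;> linarith [a1.1, a1.2, a2.1, a2.2]
    · have a1 := h1 i hx1
      have a2 := h2 j hx2
      have b1 := a1.1
      have b2 := a1.2
      have b3 := a2.1
      have b4 := a2.2
      cases s <;> cases t
      · refine same false rfl rfl ?_
        rw [abs_lt]
        constructor <;> linarith
      · refine key (θ i) (θ j - π) ?_ (by simp [gPt]) (by simp [gPt, hm])
        rw [abs_lt]
        constructor <;> linarith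
      · refine key (θ i + π) (θ j) ?_ (by simp [gPt, hp]) (by simp [gPt])
        rw [abs_lt]
        constructor <;> linarith
      · refine same true rfl rfl ?_
        rw [abs_lt]
        constructor <;> linarith

private lemma prt_inj (p q : ℕ) (θ : Fin (p + q) → ℝ) (h : Good θ)
    (x y : (Fin (p + q) × Fin (p + q)) × Bool × Bool) (hx : good p q x) (hy : good p q y)
    (e : prt θ x = prt θ y) : x = y := by
  classical
  obtain ⟨⟨i, j⟩, s, t⟩ := x
  obtain ⟨⟨i', j'⟩, s', t'⟩ := y
  have hij := hx.1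
  have hij' := hy.1
  simp only at hij hij'
  have e2 : ({gPt θ (i, s), gPt θ (j, t)} : Set (E 4)) = {gPt θ (i', s'), gPt θ (j', t')} := by
    have := congrArg (fun W : Finset (E 4) => (W : Set (E 4))) e
    simpa [prt] using this
  rw [Set.pair_eq_pair_iff] at e2
  rcases e2 with ⟨e1, e2⟩ | ⟨e1, e2⟩
  · have f1 := gPt_inj h e1
    have f2 := gPt_inj h e2
    simp only [Prod.mk.injEq] at f1 f2 ⊢
    exact ⟨⟨f1.1, f2.1⟩, f1.2, f2.2⟩
  · have f1 := gPt_inj h e1
    have f2 := gPt_inj h e2
    simp only [Prod.mk.injEq] at f1 f2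
    rw [f1.1, f2.1] at hij
    omega

/-- the index types. -/
private def toGood (p q : ℕ) : ((Fin p × Fin p) ⊕ (Fin q × Fin q)) ⊕
    (Fin p × Fin q × Bool × Bool) → (Fin (p + q) × Fin (p + q)) × Bool × Bool
  | Sum.inl (Sum.inl (i, j)) => if i < j then ((Fin.castAdd q i, Fin.castAdd q j), false, false)
      else ((Fin.castAdd q j, Fin.castAdd q i), true, true)
  | Sum.inl (Sum.inr (i, j)) => if i < j then ((Fin.natAdd p i, Fin.natAdd p j), false, false)
      else ((Fin.natAdd p j, Fin.natAdd p i), true, true)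
  | Sum.inr (i, j, s, t) => ((Fin.castAdd q i, Fin.natAdd p j), s, t)

private lemma toGood_good (p q : ℕ) (x : ((Fin p × Fin p) ⊕ (Fin q × Fin q)) ⊕
    (Fin p × Fin q × Bool × Bool))
    (hx1 : ∀ i j, x = Sum.inl (Sum.inl (i, j)) → i ≠ j)
    (hx2 : ∀ i j, x = Sum.inl (Sum.inr (i, j)) → i ≠ j) : good p q (toGood p q x) := by
  rcases x with (⟨i, j⟩ | ⟨i, j⟩) | ⟨i, j, s, t⟩
  · have hne := hx1 i j rfl
    have hne' : (i : ℕ) ≠ j := fun e => hne (Fin.ext e)
    have := i.2
    have := j.2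
    simp only [toGood]
    split_ifs with h
    · refine ⟨by simpa using h, Or.inl ⟨rfl, Or.inl (by simp)⟩⟩
    · refine ⟨?_, Or.inl ⟨rfl, Or.inl (by simp)⟩⟩
      rw [Fin.lt_def] at h
      simp only [Fin.val_castAdd]
      omega
  · have hne := hx2 i j rfl
    have hne' : (i : ℕ) ≠ j := fun e => hne (Fin.ext e)
    simp only [toGood]
    split_ifs with h
    · refine ⟨by simpa using h, Or.inl ⟨rfl, Or.inr (by simp)⟩⟩
    · refine ⟨?_, Or.inl ⟨rfl, Or.inr (by simp)⟩⟩
      rw [Fin.lt_def] at h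
      simp only [Fin.val_natAdd]
      omega
  · have := i.2
    refine ⟨?_, Or.inr ⟨?_, ?_⟩⟩
    · simp only [toGood, Fin.val_castAdd, Fin.val_natAdd]
      omega
    · simp [toGood]
    · simp [toGood]

private lemma toGood_inj (p q : ℕ) (x y : ((Fin p × Fin p) ⊕ (Fin q × Fin q)) ⊕
    (Fin p × Fin q × Bool × Bool))
    (e : toGood p q x = toGood p q y) : x = y := by
  rcases x with (⟨i, j⟩ | ⟨i, j⟩) | ⟨i, j, s, t⟩ <;>
    rcases y with (⟨i', j'⟩ | ⟨i', j'⟩) | ⟨i', j', s', t'⟩ <;>
    simp only [toGood] at e <;>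
    (try split_ifs at e) <;>
    simp only [Prod.mk.injEq, Fin.ext_iff, Fin.val_castAdd, Fin.val_natAdd, Bool.false_eq_true,
      and_false, false_and, and_true, true_and, reduceCtorEq] at e <;>
    first
      | (simp only [Sum.inl.injEq, Sum.inr.injEq, Prod.mk.injEq, Fin.ext_iff]
         first
           | omega
           | (obtain ⟨⟨e1, e2⟩, e3, e4⟩ := e
              exact ⟨e1, by omega, e3, e4⟩))
      | (exfalso
         have := i.2
         have := j.2
         have := i'.2
         have := j'.2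
         omega)

theorem pts_edges (p q : ℕ) (θ : Fin (p + q) → ℝ) (h : Good θ)
    (h1 : ∀ i : Fin (p + q), (i : ℕ) < p → -(1 / 10) < θ i ∧ θ i < 1 / 10)
    (h2 : ∀ i : Fin (p + q), p ≤ (i : ℕ) → π / 2 - 1 / 10 < θ i ∧ θ i < π / 2 + 1 / 10) :
    p * (p - 1) + q * (q - 1) + 4 * p * q ≤ (fc (pts θ) 2).card := by
  classical
  set J : Finset (((Fin p × Fin p) ⊕ (Fin q × Fin q)) ⊕ (Fin p × Fin q × Bool × Bool)) :=
    ((Finset.univ : Finset (Fin p)).offDiag.disjSum (Finset.univ : Finset (Fin q)).offDiag).disjSum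
      Finset.univ with hJ
  have hcard : J.card = p * (p - 1) + q * (q - 1) + 4 * p * q := by
    rw [hJ, Finset.card_disjSum, Finset.card_disjSum, Finset.offDiag_card, Finset.offDiag_card]
    simp only [Finset.card_univ, Fintype.card_fin, Fintype.card_prod, Fintype.card_bool]
    rw [Nat.mul_sub, Nat.mul_sub, mul_one, mul_one]
    ring
  rw [← hcard]
  have hg : ∀ x ∈ J, good p q (toGood p q x) := by
    intro x hx
    refine toGood_good p q x ?_ ?_
    · rintro i j rfl
      rw [hJ, Finset.inl_mem_disjSum, Finset.inl_mem_disjSum, Finset.mem_offDiag] at hx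
      exact hx.2.2
    · rintro i j rfl
      rw [hJ, Finset.inl_mem_disjSum, Finset.inr_mem_disjSum, Finset.mem_offDiag] at hx
      exact hx.2.2
  refine Finset.card_le_card_of_injOn (fun x => prt θ (toGood p q x)) ?_ ?_
  · intro x hx
    exact prt_mem p q θ h h1 h2 _ (hg x hx)
  · intro x hx y hy e
    exact toGood_inj p q x y (prt_inj p q θ h _ _ (hg x hx) (hg y hy) e)

end Pool.Agent.H.MP_4bcbbd_co
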