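import Pool.Agent.H.MP_4bcbbd_co.Base

/-!
MP_4bcbbd_co: representatives of the antipodal pairs and the graph of full pairs.
-/

set_option autoImplicit false

namespace Pool.Agent.H.MP_4bcbbd_co

/-- `r` lists one point of every antipodal pair of `V`. -/
structure Reps {d n : ℕ} (V : Finset (E d)) (r : Fin n → E d) : Prop where
  mem : ∀ i, r i ∈ V
  surj : ∀ v ∈ V, ∃ i, v = r i ∨ v = -r i
  inj : ∀ i j, i ≠ j → r i ≠ r j
  anti : ∀ i j, r i ≠ -r j

/-- the first nonzero coordinate is positive. -/
private def RepsPos {d : ℕ} (v : E d) : Prop := ∃ i : Fin d, 0 < v i ∧ ∀ j < i, v j = 0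

private lemma repsPos_or {d : ℕ} {v : E d} (hv : v ≠ 0) : RepsPos v ∨ RepsPos (-v) := by
  have hex : ∃ i : Fin d, v i ≠ 0 := by
    by_contra h
    push Not at h
    exact hv (by ext i; simpa using h i)
  obtain ⟨i, hi, hmin⟩ := WellFounded.has_min (wellFounded_lt (α := Fin d)) {i | v i ≠ 0} hex
  have hz : ∀ j < i, v j = 0 := by
    intro j hj
    by_contra h
    exact hmin j h hj
  rcases lt_or_gt_of_ne hi with h | h
  · right
    exact ⟨i, by simpa using h, fun j hj => by simp [hz j hj]⟩
  · left
    exact ⟨i, h, hz⟩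

private lemma repsPos_not {d : ℕ} {v : E d} (h : RepsPos v) : ¬ RepsPos (-v) := by
  rintro ⟨j, hj, hj2⟩
  obtain ⟨i, hi, hi2⟩ := h
  have hj' : v j < 0 := by simpa using hj
  rcases lt_trichotomy i j with hij | hij | hij
  · have := hj2 i hij
    have h3 : v i = 0 := by simpa using this
    linarith
  · subst hij
    linarith
  · have := hi2 j hij
    linarith

theorem exists_reps {d : ℕ} (V : Finset (E d)) (hV : CSData V) (n : ℕ) (hn : V.card = 2 * n) :
    ∃ r : Fin n → E d, Reps V r := by
  classical
  set R : Finset (E d) := V.filter fun v => RepsPos v with hR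
  set R' : Finset (E d) := V.filter fun v => ¬ RepsPos v with hR'
  have hcard : R.card + R'.card = V.card := by
    rw [hR, hR']
    exact Finset.card_filter_add_card_filter_not _
  have hbij : R'.card = R.card := by
    refine Finset.card_bij (fun v _ => -v) ?_ ?_ ?_
    · intro v hv
      rw [hR', Finset.mem_filter] at hv
      rw [hR, Finset.mem_filter]
      refine ⟨hV.neg v hv.1, ?_⟩
      rcases repsPos_or (hV.ne_zero hv.1) with h | h
      · exact absurd h hv.2
      · exact h
    · intro a _ b _ hab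
      exact neg_injective hab
    · intro v hv
      rw [hR, Finset.mem_filter] at hv
      refine ⟨-v, ?_, neg_neg v⟩
      rw [hR', Finset.mem_filter]
      exact ⟨hV.neg v hv.1, repsPos_not hv.2⟩
  have hRn : R.card = n := by omega
  let e := R.equivFinOfCardEq hRn
  have hmem : ∀ i : Fin n, ((e.symm i : R) : E d) ∈ V ∧ RepsPos ((e.symm i : R) : E d) := by
    intro i
    exact Finset.mem_filter.1 (e.symm i).2
  refine ⟨fun i => ((e.symm i : R) : E d), ?_, ?_, ?_, ?_⟩
  · intro i
    exact (hmem i).1
  · intro v hv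
    rcases repsPos_or (hV.ne_zero hv) with h | h
    · have hvR : v ∈ R := by
        rw [hR, Finset.mem_filter]
        exact ⟨hv, h⟩
      refine ⟨e ⟨v, hvR⟩, Or.inl ?_⟩
      simp
    · have hvR : -v ∈ R := by
        rw [hR, Finset.mem_filter]
        exact ⟨hV.neg v hv, h⟩
      refine ⟨e ⟨-v, hvR⟩, Or.inr ?_⟩
      simp
  · intro i j hij h
    exact hij (e.symm.injective (Subtype.ext h))
  · intro i j h
    have h1 := (hmem i).2
    have h2 := (hmem j).2
    have h3 : ((e.symm i : R) : E d) = -((e.symm j : R) : E d) := h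
    rw [h3] at h1
    exact repsPos_not h2 h1

/-- the graph of full pairs. -/
def fullGraph {d n : ℕ} (V : Finset (E d)) (hV : CSData V) (r : Fin n → E d) (hr : Reps V r) :
    SimpleGraph (Fin n) where
  Adj i j := i ≠ j ∧ Full V (r i) (r j)
  symm := by
    constructor
    rintro i j ⟨hij, h1, h2, ⟨l, hl1, hl2, hl3⟩, ⟨m, hm1, hm2, hm3⟩⟩
    refine ⟨hij.symm, h1.symm, ?_, ⟨l, hl2, hl1, fun v hv a b => hl3 v hv b a⟩,
      ⟨-m, by simp [hm2], by simp [hm1], fun v hv a b => ?_⟩⟩
    · intro h
      exact h2 (by rw [h, neg_neg])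
    · have := hm3 (-v) (hV.neg v hv) (fun h => b (by rw [← h, neg_neg]))
        (fun h => a (neg_injective h))
      simpa using this
  loopless := by
    constructor
    intro i h
    exact h.1 rfl

end Pool.Agent.H.MP_4bcbbd_co
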